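import Mathlib
import Pool.Agent.Helper1.Sard.Chart

set_option autoImplicit false

open Set MeasureTheory Filter Topology Module
open scoped ContDiff NNReal ENNReal

namespace Pool.Agent.Helper1.KakSmooth

/-- If the linear form `q` vanishes on the kernel of the derivative of `G` wherever this
derivative is surjective, then `q` is locally constant on the level sets of `G` near a point with
surjective derivative. -/
lemma const_near {H E : Type} [NormedAddCommGroup H] [NormedSpace ℝ H] [FiniteDimensional ℝ H]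
    [NormedAddCommGroup E] [NormedSpace ℝ E] [FiniteDimensional ℝ E]
    (G : H → E) (hG : ContDiff ℝ ∞ G) (q : H →L[ℝ] ℝ)
    (hker : ∀ z, Function.Surjective (fderiv ℝ G z) → ∀ u, fderiv ℝ G z u = 0 → q u = 0)
    (z0 : H) (hs : Function.Surjective (fderiv ℝ G z0)) :
    ∀ᶠ z in 𝓝 z0, G z = G z0 → q z = q z0 := by
  have : CompleteSpace H := FiniteDimensional.complete ℝ H
  have : CompleteSpace E := FiniteDimensional.complete ℝ E
  set L : H →L[ℝ] E := fderiv ℝ G z0 with hL
  set K : Submodule ℝ H := LinearMap.ker (L : H →ₗ[ℝ] E) with hK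
  obtain ⟨π, hπ⟩ : K.ClosedComplemented := L.ker_closedComplemented_of_finiteDimensional_range
  have hmemK : ∀ u : H, u ∈ K ↔ L u = 0 := by intro u; simp [hK]
  have hbij : Function.Bijective (L.prod π) := by
    constructor
    · rw [injective_iff_map_eq_zero]
      intro u hu
      have h1 : L u = 0 := congrArg Prod.fst hu
      have h2 : π u = 0 := congrArg Prod.snd hu
      have h3 := hπ ⟨u, (hmemK u).2 h1⟩
      rw [h2] at h3
      exact (congrArg Subtype.val h3).symm
    · rintro ⟨y, k⟩
      obtain ⟨u, hu⟩ := hs y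
      refine ⟨u + ((k - π u : K) : H), ?_⟩
      have h1 : L ((k - π u : K) : H) = 0 := (hmemK _).1 (k - π u).2
      have h2 := hπ (k - π u)
      simp only [ContinuousLinearMap.prod_apply, map_add, h1, h2, hu]
      simp
  set e0 : H ≃L[ℝ] E × K := ContinuousLinearEquiv.ofBijective (L.prod π)
    (LinearMap.ker_eq_bot.2 hbij.1) (LinearMap.range_eq_top.2 hbij.2) with he0
  set Φ : H → E × K := fun z => (G z, π (z - z0)) with hΦd
  have hΦ : ContDiff ℝ ∞ Φ := hG.prodMk (π.contDiff.comp (contDiff_id.sub contDiff_const))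
  have hΦ' : HasFDerivAt Φ (e0 : H →L[ℝ] E × K) z0 := by
    have h1 : HasFDerivAt G L z0 := ((hG.differentiable (by simp)) z0).hasFDerivAt
    have h2 : HasFDerivAt (fun z => π (z - z0)) π z0 :=
      π.hasFDerivAt.comp z0 ((hasFDerivAt_id z0).sub_const z0)
    refine (h1.prodMk h2).congr_fderiv ?_
    ext v <;> rfl
  obtain ⟨e, hes, heΦ, hesymm, hinv⟩ := Sard.chart Φ hΦ z0 _ hΦ'
  -- the derivative of `G` is surjective on the source
  have hsurj : ∀ z ∈ e.source, Function.Surjective (fderiv ℝ G z) := by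
    intro z hz y
    obtain ⟨e', he'⟩ := hinv z hz
    obtain ⟨u, hu⟩ := e'.surjective (y, 0)
    have h1 : HasFDerivAt (fun z => (Φ z).1)
        ((ContinuousLinearMap.fst ℝ E K) ∘L (e' : H →L[ℝ] E × K)) z :=
      (ContinuousLinearMap.fst ℝ E K).hasFDerivAt.comp z he'
    have h2 : fderiv ℝ G z = (ContinuousLinearMap.fst ℝ E K) ∘L (e' : H →L[ℝ] E × K) := h1.fderiv
    refine ⟨u, ?_⟩
    rw [h2]
    change (e' u).1 = y
    rw [hu]
  have hΦz0 : Φ z0 = (G z0, 0) := by simp [hΦd]
  have ht0 : (G z0, (0 : K)) ∈ e.target := by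
    have := e.map_source hes
    rwa [heΦ, hΦz0] at this
  have hes0 : e.symm (G z0, 0) = z0 := by
    rw [← hΦz0, ← heΦ]
    exact e.left_inv hes
  set ι : K → E × K := fun k => (G z0, k) with hι
  have hιs : ContDiff ℝ ∞ ι := contDiff_const.prodMk contDiff_id
  have hO : ι ⁻¹' e.target ∈ 𝓝 (0 : K) :=
    hιs.continuous.continuousAt.preimage_mem_nhds (e.open_target.mem_nhds ht0)
  obtain ⟨r, hr, hrO⟩ := Metric.mem_nhds_iff.1 hO
  -- the function is constant on the ball
  have hd : ∀ k ∈ Metric.ball (0 : K) r, HasFDerivAt (fun k => q (e.symm (ι k)))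
      (0 : K →L[ℝ] ℝ) k := by
    intro k hk
    have hkt : ι k ∈ e.target := hrO hk
    have h1 : DifferentiableAt ℝ (fun k => e.symm (ι k)) k :=
      ((hesymm _ hkt).comp k hιs.contDiffAt).differentiableAt (by simp)
    have h2 := h1.hasFDerivAt
    have h3 : HasFDerivAt (fun k => q (e.symm (ι k)))
        (q ∘L fderiv ℝ (fun k => e.symm (ι k)) k) k := q.hasFDerivAt.comp k h2
    have h4 : HasFDerivAt (fun k => G (e.symm (ι k)))
        (fderiv ℝ G (e.symm (ι k)) ∘L fderiv ℝ (fun k => e.symm (ι k)) k) k :=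
      HasFDerivAt.comp k ((hG.differentiable (by simp)) _).hasFDerivAt h2
    have h5 : (fun k => G (e.symm (ι k))) =ᶠ[𝓝 k] fun _ => G z0 := by
      filter_upwards [Metric.isOpen_ball.mem_nhds hk] with k' hk'
      have h6 := e.right_inv (hrO hk' : ι k' ∈ e.target)
      rw [heΦ] at h6
      exact congrArg Prod.fst h6
    have h7 : fderiv ℝ G (e.symm (ι k)) ∘L fderiv ℝ (fun k => e.symm (ι k)) k = 0 := by
      rw [← h4.fderiv, h5.fderiv_eq]
      simp
    refine h3.congr_fderiv ?_
    apply ContinuousLinearMap.ext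
    intro v
    have h8 : fderiv ℝ G (e.symm (ι k)) (fderiv ℝ (fun k => e.symm (ι k)) k v) = 0 :=
      congrArg (fun T : K →L[ℝ] E => T v) h7
    exact hker _ (hsurj _ (e.map_target hkt)) _ h8
  have hconst : ∀ k ∈ Metric.ball (0 : K) r, q (e.symm (ι k)) = q z0 := by
    intro k hk
    have h1 := (convex_ball (0 : K) r).norm_image_sub_le_of_norm_hasFDerivWithin_le
      (f := fun k => q (e.symm (ι k))) (f' := fun _ => 0) (C := 0)
      (fun k hk => (hd k hk).hasFDerivWithinAt) (by simp) (Metric.mem_ball_self hr) hk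
    rw [zero_mul] at h1
    have h2 := norm_le_zero_iff.1 h1
    rw [sub_eq_zero] at h2
    rw [h2]
    change q (e.symm (G z0, 0)) = q z0
    rw [hes0]
  have hcont : ContinuousAt (fun z => π (z - z0)) z0 :=
    (π.continuous.comp (continuous_id.sub continuous_const)).continuousAt
  have hb : Metric.ball (0 : K) r ∈ 𝓝 (π (z0 - z0)) := by
    rw [sub_self, map_zero]
    exact Metric.ball_mem_nhds _ hr
  filter_upwards [hcont.preimage_mem_nhds hb, e.open_source.mem_nhds hes] with z hz1 hz2 hz3
  have h1 := hconst _ hz1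
  have h2 : ι (π (z - z0)) = Φ z := by
    simp only [hι, hΦd, hz3]
  rw [h2, ← heΦ, e.left_inv hz2] at h1
  exact h1

end Pool.Agent.Helper1.KakSmooth
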