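import Mathlib
import Pool.Agent.Helper1.Sard.Par
import Pool.Agent.Helper1.KakSmooth.Const

set_option autoImplicit false

open Set MeasureTheory Filter Topology Module
open scoped ContDiff NNReal ENNReal

namespace Pool.Agent.Helper1.KakSmooth

/-- The transversal parameters form a countable set. -/
lemma count_transverse {E F : Type} [NormedAddCommGroup E] [NormedSpace ℝ E]
    [FiniteDimensional ℝ E] [NormedAddCommGroup F] [NormedSpace ℝ F] [FiniteDimensional ℝ F]
    (Ψ : F → E) (hΨ : ContDiff ℝ ∞ Ψ) (hrk : ∀ s, ¬ Function.Surjective (fderiv ℝ Ψ s))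
    (x v : E) :
    {t : ℝ | ∃ s, Ψ s = x + t • v ∧
      Function.Surjective (fun u : ℝ × F => u.1 • v - fderiv ℝ Ψ s u.2)}.Countable := by
  set G : ℝ × F → E := fun z => z.1 • v - Ψ z.2 with hG
  have hGs : ContDiff ℝ ∞ G := (contDiff_fst.smul contDiff_const).sub (hΨ.comp contDiff_snd)
  have hGd : ∀ z u : ℝ × F, fderiv ℝ G z u = u.1 • v - fderiv ℝ Ψ z.2 u.2 := by
    intro z u
    have h1 : HasFDerivAt (fun z : ℝ × F => z.1 • v)
        ((ContinuousLinearMap.fst ℝ ℝ F).smulRight v) z :=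
      hasFDerivAt_fst.smul_const v
    have h2 : HasFDerivAt (fun z : ℝ × F => Ψ z.2)
        (fderiv ℝ Ψ z.2 ∘L ContinuousLinearMap.snd ℝ ℝ F) z :=
      HasFDerivAt.comp z ((hΨ.differentiable (by simp)) z.2).hasFDerivAt hasFDerivAt_snd
    have h3 : HasFDerivAt G ((ContinuousLinearMap.fst ℝ ℝ F).smulRight v -
        fderiv ℝ Ψ z.2 ∘L ContinuousLinearMap.snd ℝ ℝ F) z := h1.sub h2
    rw [h3.fderiv]
    rfl
  have hker : ∀ z, Function.Surjective (fderiv ℝ G z) → ∀ u, fderiv ℝ G z u = 0 →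
      (ContinuousLinearMap.fst ℝ ℝ F) u = 0 := by
    intro z hz u hu
    rw [hGd] at hu
    by_contra hne
    have hne' : u.1 ≠ 0 := hne
    apply hrk z.2
    have hv : fderiv ℝ Ψ z.2 (u.1⁻¹ • u.2) = v := by
      rw [map_smul, ← sub_eq_zero.1 hu, smul_smul, inv_mul_cancel₀ hne', one_smul]
    intro y
    obtain ⟨w, hw⟩ := hz y
    rw [hGd] at hw
    refine ⟨w.1 • (u.1⁻¹ • u.2) - w.2, ?_⟩
    rw [map_sub, map_smul, hv, hw]
  set Z1 : Set (ℝ × F) := {z | Ψ z.2 = x + z.1 • v ∧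
      Function.Surjective (fun u : ℝ × F => u.1 • v - fderiv ℝ Ψ z.2 u.2)} with hZ1
  have hloc : ∀ z ∈ Z1, ∃ U ∈ 𝓝 z, ∀ z' ∈ U ∩ Z1, z'.1 = z.1 := by
    intro z hz
    have hsj : Function.Surjective (fderiv ℝ G z) := by
      intro y
      obtain ⟨u, hu⟩ := hz.2 y
      exact ⟨u, by rw [hGd]; exact hu⟩
    refine ⟨_, const_near G hGs _ hker z hsj, ?_⟩
    rintro z' ⟨h1, h2⟩
    apply h1
    simp only [hG, h2.1, hz.1]
    abel
  choose! U hU hUn using hloc
  obtain ⟨C, hCs, hCc, hcov⟩ := TopologicalSpace.countable_cover_nhdsWithin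
    (s := Z1) (f := U) (fun z hz => mem_nhdsWithin_of_mem_nhds (hU z hz))
  refine (hCc.image Prod.fst).mono ?_
  rintro t ⟨s, hs1, hs2⟩
  have hmem : (t, s) ∈ Z1 := ⟨hs1, hs2⟩
  obtain ⟨z, hzC, hzU⟩ := mem_iUnion₂.1 (hcov hmem)
  exact ⟨z, hzC, (hUn z (hCs hzC) (t, s) ⟨hzU, hmem⟩).symm⟩

/-- Linear algebra: more than `dim D` nonzero vectors `p k` and distinct numbers `t k`. -/
lemma exists_combination {D : Type} [AddCommGroup D] [Module ℝ D] [FiniteDimensional ℝ D]
    (N : ℕ) (hN : finrank ℝ D < N) (t : Fin N → ℝ) (ht : Function.Injective t)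
    (p : Fin N → D) (hp : ∀ k, p k ≠ 0) :
    ∃ c : Fin N → ℝ, ∑ k, c k • p k = 0 ∧ ∑ k, t k • (c k • p k) ≠ 0 := by
  by_contra hcon
  push Not at hcon
  -- a nontrivial relation
  obtain ⟨c, hc0, k, hk⟩ : ∃ c : Fin N → ℝ, ∑ k, c k • p k = 0 ∧ ∃ k, c k ≠ 0 := by
    have hdep : ¬ LinearIndependent ℝ p := by
      intro h
      have := h.fintype_card_le_finrank
      rw [Fintype.card_fin] at this
      omega
    rw [Fintype.linearIndependent_iff] at hdep
    push Not at hdep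
    exact hdep
  have hS : ∀ S : Finset (Fin N), ∑ i, ((∏ j ∈ S, (t i - t j)) * c i) • p i = 0 := by
    intro S
    induction S using Finset.induction_on with
    | empty => simpa using hc0
    | insert a S ha ih =>
      have h1 := hcon _ ih
      have h2 : ∑ i, ((∏ j ∈ insert a S, (t i - t j)) * c i) • p i =
          ∑ i, t i • (((∏ j ∈ S, (t i - t j)) * c i) • p i) -
            t a • ∑ i, ((∏ j ∈ S, (t i - t j)) * c i) • p i := by
        rw [Finset.smul_sum, ← Finset.sum_sub_distrib]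
        apply Finset.sum_congr rfl
        intro i _
        rw [Finset.prod_insert ha, ← sub_smul, smul_smul]
        congr 1
        ring
      rw [h2, h1, ih, smul_zero, sub_zero]
  have h1 := hS (Finset.univ.erase k)
  rw [Finset.sum_eq_single k] at h1
  · rcases smul_eq_zero.1 h1 with h2 | h2
    · rcases mul_eq_zero.1 h2 with h3 | h3
      · rw [Finset.prod_eq_zero_iff] at h3
        obtain ⟨j, hj, hj2⟩ := h3
        have : t k = t j := by linarith
        exact (Finset.ne_of_mem_erase hj) (ht this).symm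
      · exact hk h3
    · exact hp k h2
  · intro i _ hik
    have : ∏ j ∈ Finset.univ.erase k, (t i - t j) = 0 :=
      Finset.prod_eq_zero (Finset.mem_erase.2 ⟨hik, Finset.mem_univ i⟩) (sub_self _)
    rw [this, zero_mul, zero_smul]
  · intro h
    exact absurd (Finset.mem_univ k) h

section conf

variable {E F X : Type} [NormedAddCommGroup E] [NormedSpace ℝ E] [FiniteDimensional ℝ E]
  [NormedAddCommGroup F] [NormedSpace ℝ F] [FiniteDimensional ℝ F]
  [NormedAddCommGroup X] [NormedSpace ℝ X] [FiniteDimensional ℝ X]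

/-- the space of the auxiliary parameters `(l, x, τ, s, P)` -/
abbrev Par (E F : Type) [NormedAddCommGroup E] [NormedSpace ℝ E] [NormedAddCommGroup F]
    [NormedSpace ℝ F] (N : ℕ) : Type :=
  ℝ × (E × ((Fin N → ℝ) × ((Fin N → F) × (Fin N → (E →L[ℝ] ℝ)))))

/-- the function whose critical points are the configurations -/
noncomputable def gfun (Ψ : F → E) (N : ℕ) (A : X →L[ℝ] E) (a e' : E) : X × Par E F N → ℝ :=
  fun p => p.2.1 - ∑ k, (p.2.2.2.2.2 k)
    (p.2.2.1 + (p.2.2.2.1 k) • (a + A p.1 + p.2.1 • e') - Ψ (p.2.2.2.2.1 k))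

lemma gfun_smooth (Ψ : F → E) (hΨ : ContDiff ℝ ∞ Ψ) (N : ℕ) (A : X →L[ℝ] E) (a e' : E) :
    ContDiff ℝ ∞ (gfun Ψ N A a e') := by
  unfold gfun
  have hA : ContDiff ℝ ∞ A := A.contDiff
  apply ContDiff.sub
  · fun_prop
  · apply ContDiff.sum
    intro k _
    apply ContDiff.clm_apply
    · fun_prop
    · apply ContDiff.sub
      · fun_prop
      · apply hΨ.comp
        fun_prop

lemma gfun_crit (Ψ : F → E) (hΨ : ContDiff ℝ ∞ Ψ) (N : ℕ) (A : X →L[ℝ] E) (a e' : E)
    (ξ : X) (l : ℝ) (x : E) (τ : Fin N → ℝ) (s : Fin N → F) (P : Fin N → (E →L[ℝ] ℝ))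
    (h1 : ∀ k, Ψ (s k) = x + τ k • (a + A ξ + l • e')) (h2 : ∀ k, P k (a + A ξ + l • e') = 0)
    (h3 : ∀ k u, P k (fderiv ℝ Ψ (s k) u) = 0) (h4 : ∑ k, P k = 0)
    (h5 : ∑ k, τ k * P k e' = 1) :
    fderiv ℝ (fun y => gfun Ψ N A a e' (ξ, y)) (l, x, τ, s, P) = 0 := by
  set y0 : Par E F N := (l, x, τ, s, P) with hy0
  set pl : Par E F N →L[ℝ] ℝ := ContinuousLinearMap.fst ℝ _ _ with hpl
  set px : Par E F N →L[ℝ] E :=
    (ContinuousLinearMap.fst ℝ _ _) ∘L (ContinuousLinearMap.snd ℝ _ _) with hpx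
  set pt : Fin N → (Par E F N →L[ℝ] ℝ) := fun k =>
    (ContinuousLinearMap.proj k) ∘L (ContinuousLinearMap.fst ℝ _ _) ∘L
      (ContinuousLinearMap.snd ℝ _ _) ∘L (ContinuousLinearMap.snd ℝ _ _) with hpt
  set ps : Fin N → (Par E F N →L[ℝ] F) := fun k =>
    (ContinuousLinearMap.proj k) ∘L (ContinuousLinearMap.fst ℝ _ _) ∘L
      (ContinuousLinearMap.snd ℝ _ _) ∘L (ContinuousLinearMap.snd ℝ _ _) ∘L
      (ContinuousLinearMap.snd ℝ _ _) with hps
  set pP : Fin N → (Par E F N →L[ℝ] (E →L[ℝ] ℝ)) := fun k =>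
    (ContinuousLinearMap.proj k) ∘L (ContinuousLinearMap.snd ℝ _ _) ∘L
      (ContinuousLinearMap.snd ℝ _ _) ∘L (ContinuousLinearMap.snd ℝ _ _) ∘L
      (ContinuousLinearMap.snd ℝ _ _) with hpP
  set v : E := a + A ξ + l • e' with hv
  -- the inner vectors
  have hW : ∀ k, HasFDerivAt (fun y : Par E F N =>
      px y + (pt k y) • (a + A ξ + (pl y) • e') - Ψ (ps k y))
      (px + (τ k • (pl.smulRight e') + (pt k).smulRight v) - fderiv ℝ Ψ (s k) ∘L ps k) y0 := by
    intro k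
    have hin : HasFDerivAt (fun y : Par E F N => a + A ξ + (pl y) • e') (pl.smulRight e') y0 := by
      have := (pl.hasFDerivAt (x := y0)).smul_const e'
      exact this.const_add _
    have hmid : HasFDerivAt (fun y : Par E F N => (pt k y) • (a + A ξ + (pl y) • e'))
        (τ k • (pl.smulRight e') + (pt k).smulRight v) y0 :=
      ((pt k).hasFDerivAt (x := y0)).smul hin
    have hout : HasFDerivAt (fun y : Par E F N => Ψ (ps k y))
        (fderiv ℝ Ψ (s k) ∘L ps k) y0 :=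
      HasFDerivAt.comp (g := Ψ) y0 ((hΨ.differentiable (by simp)) (s k)).hasFDerivAt
        ((ps k).hasFDerivAt (x := y0))
    exact (px.hasFDerivAt.add hmid).sub hout
  have hWv : ∀ k, px y0 + (pt k y0) • (a + A ξ + (pl y0) • e') - Ψ (ps k y0) = 0 := by
    intro k
    rw [sub_eq_zero]
    exact (h1 k).symm
  have hterm : ∀ k, HasFDerivAt (fun y : Par E F N =>
      (pP k y) (px y + (pt k y) • (a + A ξ + (pl y) • e') - Ψ (ps k y)))
      ((P k) ∘L (px + (τ k • (pl.smulRight e') + (pt k).smulRight v) -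
        fderiv ℝ Ψ (s k) ∘L ps k)) y0 := by
    intro k
    have := ((pP k).hasFDerivAt (x := y0)).clm_apply (hW k)
    refine this.congr_fderiv ?_
    apply ContinuousLinearMap.ext
    intro u
    rw [hWv k]
    simp [hy0, hpP]
  have hall : HasFDerivAt (fun y => gfun Ψ N A a e' (ξ, y))
      (pl - ∑ k, (P k) ∘L (px + (τ k • (pl.smulRight e') + (pt k).smulRight v) -
        fderiv ℝ Ψ (s k) ∘L ps k)) y0 :=
    pl.hasFDerivAt.sub (HasFDerivAt.fun_sum fun k _ => hterm k)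
  rw [hall.fderiv]
  apply ContinuousLinearMap.ext
  intro u
  have hk : ∀ k, (P k ∘L (px + (τ k • (pl.smulRight e') + (pt k).smulRight v) -
      fderiv ℝ Ψ (s k) ∘L ps k)) u = P k (px u) + pl u * (τ k * P k e') := by
    intro k
    change P k (px u + (τ k • (pl u • e') + pt k u • v) - fderiv ℝ Ψ (s k) (ps k u)) = _
    rw [map_sub, map_add, map_add, map_smul, map_smul, map_smul, h2 k, h3 k]
    simp only [smul_eq_mul]
    ring
  rw [sub_apply, sum_apply, Finset.sum_congr rfl (fun k _ => hk k),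
    Finset.sum_add_distrib, ← Finset.mul_sum, h5, mul_one]
  have h6 : ∑ k, P k (px u) = 0 := by
    rw [← sum_apply, h4]
    rfl
  rw [h6]
  simp

/-- The directions of configurations have small dimension. -/
lemma conf_dim (Ψ : F → E) (hΨ : ContDiff ℝ ∞ Ψ) (N : ℕ) (A : X →L[ℝ] E) (a e' : E) :
    dimH {v : E | ∃ (ξ : X) (l : ℝ), v = a + A ξ + l • e' ∧
      ∃ (x : E) (τ : Fin N → ℝ) (s : Fin N → F) (P : Fin N → (E →L[ℝ] ℝ)),
        (∀ k, Ψ (s k) = x + τ k • v) ∧ (∀ k, P k v = 0) ∧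
        (∀ k u, P k (fderiv ℝ Ψ (s k) u) = 0) ∧ (∑ k, P k = 0) ∧
        (∑ k, τ k * P k e' = 1)} ≤ finrank ℝ X := by
  have hs := Sard.sard_par (gfun Ψ N A a e') (gfun_smooth Ψ hΨ N A a e')
  set T : X × ℝ →L[ℝ] E := A ∘L (ContinuousLinearMap.fst ℝ X ℝ) +
    (ContinuousLinearMap.snd ℝ X ℝ).smulRight e' with hT
  have hlip : LipschitzWith ‖T‖₊ (fun q : X × ℝ => a + T q) := by
    have h := T.lipschitz
    intro p q
    have := h p q
    simpa using this
  refine le_trans ?_ ((hlip.dimH_image_le _).trans hs)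
  apply dimH_mono
  rintro v ⟨ξ, l, hv, x, τ, s, P, h1, h2, h3, h4, h5⟩
  refine ⟨(ξ, l), ⟨(ξ, (l, x, τ, s, P)), ?_, ?_⟩, ?_⟩
  · rw [Set.mem_ofPred_eq]
    subst hv
    exact gfun_crit Ψ hΨ N A a e' ξ l x τ s P h1 h2 h3 h4 h5
  · change (ξ, gfun Ψ N A a e' (ξ, (l, x, τ, s, P))) = (ξ, l)
    congr 1
    have : ∀ k, (P k) (x + (τ k) • (a + A ξ + l • e') - Ψ (s k)) = 0 := by
      intro k
      rw [h1 k, hv, sub_self, map_zero]
    simp only [gfun, this, Finset.sum_const_zero, sub_zero]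
  · simp only [hT, hv]
    simp [add_assoc]

end conf

end Pool.Agent.Helper1.KakSmooth
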