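import Mathlib
import Pool.Agent.Helper1.Sard.ParA

set_option autoImplicit false

open Set MeasureTheory Filter Topology Module
open scoped ContDiff NNReal ENNReal

namespace Pool.Agent.Helper1.KakSmooth

section mult

variable {W Q Y : Type} [NormedAddCommGroup W] [NormedSpace ℝ W] [FiniteDimensional ℝ W]
  [NormedAddCommGroup Q] [NormedSpace ℝ Q] [FiniteDimensional ℝ Q]
  [NormedAddCommGroup Y] [NormedSpace ℝ Y] [FiniteDimensional ℝ Y]

/-- The multiplier form of the Morse-Sard theorem. -/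
lemma mult_dim (A : Set Q) (N : ℕ) (F : Fin N → (W × Q) × (ℝ × Y) → ℝ)
    (hF : ∀ k, ContDiff ℝ ∞ (F k)) :
    dimH {q : (W × Q) × ℝ | q.1.2 ∈ A ∧ ∃ (y : Y) (a : Fin N → ℝ),
      (∀ k, F k (q.1, (q.2, y)) = 0) ∧
      ∑ k, a k • fderiv ℝ (fun z => F k (q.1, z)) (q.2, y) = ContinuousLinearMap.fst ℝ ℝ Y} ≤
      finrank ℝ W + dimH A := by
  set g : (W × Q) × ((ℝ × Y) × (Fin N → ℝ)) → ℝ :=
    fun p => p.2.1.1 - ∑ k, p.2.2 k * F k (p.1, p.2.1) with hg
  have hgs : ContDiff ℝ ∞ g := by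
    apply ContDiff.sub
    · fun_prop
    · apply ContDiff.sum
      intro k _
      apply ContDiff.mul
      · fun_prop
      · apply (hF k).comp
        fun_prop
  refine le_trans (dimH_mono ?_) (Sard.sard_A g hgs A)
  rintro ⟨p, l⟩ ⟨hpA, y, a, h1, h2⟩
  simp only at hpA h1 h2
  refine ⟨(p, ((l, y), a)), ⟨hpA, ?_⟩, ?_⟩
  · set z0 : (ℝ × Y) × (Fin N → ℝ) := ((l, y), a) with hz0
    set p1 : (ℝ × Y) × (Fin N → ℝ) →L[ℝ] (ℝ × Y) := ContinuousLinearMap.fst ℝ _ _ with hp1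
    set p2 : Fin N → ((ℝ × Y) × (Fin N → ℝ) →L[ℝ] ℝ) := fun k =>
      (ContinuousLinearMap.proj k) ∘L (ContinuousLinearMap.snd ℝ _ _) with hp2
    have hFk : ∀ k, HasFDerivAt (fun z : (ℝ × Y) × (Fin N → ℝ) => F k (p, z.1))
        (fderiv ℝ (fun z => F k (p, z)) (l, y) ∘L p1) z0 := by
      intro k
      have hsm : ContDiff ℝ ∞ (fun z => F k (p, z)) := (hF k).comp (contDiff_const.prodMk contDiff_id)
      exact HasFDerivAt.comp (g := fun z => F k (p, z)) z0
        ((hsm.differentiable (by simp)) (l, y)).hasFDerivAt (p1.hasFDerivAt (x := z0))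
    have hterm : ∀ k, HasFDerivAt (fun z : (ℝ × Y) × (Fin N → ℝ) => z.2 k * F k (p, z.1))
        (a k • (fderiv ℝ (fun z => F k (p, z)) (l, y) ∘L p1)) z0 := by
      intro k
      have h3 := ((p2 k).hasFDerivAt (x := z0)).mul (hFk k)
      refine h3.congr_fderiv ?_
      have h4 : F k (p, z0.1) = 0 := h1 k
      rw [h4, zero_smul, add_zero]
      rfl
    have hall : HasFDerivAt (fun z => g (p, z))
        ((ContinuousLinearMap.fst ℝ ℝ Y) ∘L p1 -
          ∑ k, a k • (fderiv ℝ (fun z => F k (p, z)) (l, y) ∘L p1)) z0 :=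
      (((ContinuousLinearMap.fst ℝ ℝ Y) ∘L p1).hasFDerivAt (x := z0)).sub
        (HasFDerivAt.fun_sum fun k _ => hterm k)
    change fderiv ℝ (fun z => g (p, z)) z0 = 0
    rw [hall.fderiv, ← h2, sub_eq_zero]
    ext u <;> simp
  · change (p, g (p, ((l, y), a))) = (p, l)
    congr 1
    simp only [hg]
    simp [h1]

end mult

end Pool.Agent.Helper1.KakSmooth
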