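import Mathlib
import Pool.Agent.Helper1.KakSmooth.Mult

set_option autoImplicit false

open Set MeasureTheory Filter Topology Module
open scoped ContDiff NNReal ENNReal

namespace Pool.Agent.Helper1.KakSmooth

section jet

variable {E : Type} [NormedAddCommGroup E] [NormedSpace ℝ E]

/-- `HH γ k (x, v)` is the `k`-th derivative of `γ` at `x` in the direction `v`. -/
noncomputable def HH (γ : E → ℝ) : ℕ → E × E → ℝ
  | 0 => fun p => γ p.1
  | k + 1 => fun p => fderiv ℝ (HH γ k) p (p.2, 0)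

lemma HH_smooth (γ : E → ℝ) (hγ : ContDiff ℝ ∞ γ) (k : ℕ) : ContDiff ℝ ∞ (HH γ k) := by
  induction k with
  | zero => exact hγ.comp contDiff_fst
  | succ k ih =>
    have h1 : ContDiff ℝ ∞ (fderiv ℝ (HH γ k)) := ih.fderiv_right (by simp)
    exact h1.clm_apply (contDiff_snd.prodMk contDiff_const)

lemma snd_eq {G : Type} [NormedAddCommGroup G] [NormedSpace ℝ G] (f : G → ℝ)
    (hf : ContDiff ℝ ∞ f) (p w ζ : G) :
    fderiv ℝ (fun q => fderiv ℝ f q w) p ζ = fderiv ℝ (fderiv ℝ f) p ζ w := by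
  have h1 : ContDiff ℝ ∞ (fderiv ℝ f) := hf.fderiv_right (by simp)
  have h2 := ((h1.differentiable (by simp)) p).hasFDerivAt.clm_apply (hasFDerivAt_const w p)
  rw [h2.fderiv]
  simp

lemma snd_symm {G : Type} [NormedAddCommGroup G] [NormedSpace ℝ G] (f : G → ℝ)
    (hf : ContDiff ℝ ∞ f) (p w ζ : G) :
    fderiv ℝ (fderiv ℝ f) p ζ w = fderiv ℝ (fderiv ℝ f) p w ζ := by
  have h1 : ContDiff ℝ ∞ (fderiv ℝ f) := hf.fderiv_right (by simp)
  exact second_derivative_symmetric (fun y => ((hf.differentiable (by simp)) y).hasFDerivAt)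
    ((h1.differentiable (by simp)) p).hasFDerivAt ζ w

lemma HH_fderiv_succ (γ : E → ℝ) (hγ : ContDiff ℝ ∞ γ) (k : ℕ) (p ζ : E × E) :
    fderiv ℝ (HH γ (k + 1)) p ζ =
      fderiv ℝ (fderiv ℝ (HH γ k)) p ζ (p.2, 0) + fderiv ℝ (HH γ k) p (ζ.2, 0) := by
  have hs := HH_smooth γ hγ k
  have h1 : ContDiff ℝ ∞ (fderiv ℝ (HH γ k)) := hs.fderiv_right (by simp)
  have h2 : HasFDerivAt (fun q : E × E => ((q.2, (0 : E)) : E × E))
      ((ContinuousLinearMap.snd ℝ E E).prod 0) p :=
    hasFDerivAt_snd.prodMk (hasFDerivAt_const (0 : E) p)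
  have h3 := ((h1.differentiable (by simp)) p).hasFDerivAt.clm_apply h2
  have h4 : HH γ (k + 1) = fun q => fderiv ℝ (HH γ k) q (q.2, 0) := rfl
  rw [h4, h3.fderiv]
  simp [add_comm]

lemma HH_vert_zero (γ : E → ℝ) (hγ : ContDiff ℝ ∞ γ) (p : E × E) (η : E) :
    fderiv ℝ (HH γ 0) p (0, η) = 0 := by
  have h1 : HasFDerivAt (fun q : E × E => γ q.1)
      (fderiv ℝ γ p.1 ∘L ContinuousLinearMap.fst ℝ E E) p :=
    HasFDerivAt.comp p ((hγ.differentiable (by simp)) p.1).hasFDerivAt hasFDerivAt_fst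
  have h2 : HH γ 0 = fun q : E × E => γ q.1 := rfl
  rw [h2, h1.fderiv]
  simp

lemma HH_horiz_zero (γ : E → ℝ) (hγ : ContDiff ℝ ∞ γ) (p : E × E) (η : E) :
    fderiv ℝ (HH γ 0) p (η, 0) = fderiv ℝ γ p.1 η := by
  have h1 : HasFDerivAt (fun q : E × E => γ q.1)
      (fderiv ℝ γ p.1 ∘L ContinuousLinearMap.fst ℝ E E) p :=
    HasFDerivAt.comp p ((hγ.differentiable (by simp)) p.1).hasFDerivAt hasFDerivAt_fst
  have h2 : HH γ 0 = fun q : E × E => γ q.1 := rfl
  rw [h2, h1.fderiv]
  simp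

lemma HH_vert (γ : E → ℝ) (hγ : ContDiff ℝ ∞ γ) (k : ℕ) : ∀ (p : E × E) (η : E),
    fderiv ℝ (HH γ (k + 1)) p (0, η) = ((k : ℝ) + 1) * fderiv ℝ (HH γ k) p (η, 0) := by
  induction k with
  | zero =>
    intro p η
    rw [HH_fderiv_succ γ hγ 0 p (0, η), snd_symm _ (HH_smooth γ hγ 0), ← snd_eq _ (HH_smooth γ hγ 0)]
    have h1 : (fun q => fderiv ℝ (HH γ 0) q (0, η)) = fun _ => 0 := by
      funext q
      exact HH_vert_zero γ hγ q η
    rw [h1]
    simp
  | succ k ih =>
    intro p η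
    rw [HH_fderiv_succ γ hγ (k + 1) p (0, η), snd_symm _ (HH_smooth γ hγ (k + 1)),
      ← snd_eq _ (HH_smooth γ hγ (k + 1))]
    have h1 : (fun q => fderiv ℝ (HH γ (k + 1)) q (0, η)) =
        fun q => ((k : ℝ) + 1) * fderiv ℝ (HH γ k) q (η, 0) := by
      funext q
      exact ih q η
    have hs := HH_smooth γ hγ k
    have hd : ContDiff ℝ ∞ (fun q => fderiv ℝ (HH γ k) q (η, 0)) :=
      (hs.fderiv_right (by simp)).clm_apply contDiff_const
    have h2 : fderiv ℝ (fun q => ((k : ℝ) + 1) * fderiv ℝ (HH γ k) q (η, 0)) p (p.2, 0) =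
        ((k : ℝ) + 1) * fderiv ℝ (fderiv ℝ (HH γ k)) p (p.2, 0) (η, 0) := by
      rw [← snd_eq _ hs]
      have h3 := (((hd.differentiable (by simp)) p).hasFDerivAt).const_mul ((k : ℝ) + 1)
      rw [h3.fderiv]
      simp
    have h4 : fderiv ℝ (HH γ (k + 1)) p (η, 0) =
        fderiv ℝ (fderiv ℝ (HH γ k)) p (η, 0) (p.2, 0) := by
      rw [HH_fderiv_succ γ hγ k p (η, 0)]
      have : ((0 : E), (0 : E)) = (0 : E × E) := rfl
      simp [this]
    rw [h1, h2, snd_symm _ hs, ← h4]
    push_cast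
    ring

/-- restriction to a line -/
lemma HH_line (γ : E → ℝ) (hγ : ContDiff ℝ ∞ γ) (k : ℕ) (x v : E) (t : ℝ) :
    HasDerivAt (fun t : ℝ => HH γ k (x + t • v, v)) (HH γ (k + 1) (x + t • v, v)) t := by
  have h1 : HasDerivAt (fun t : ℝ => ((x + t • v, v) : E × E)) (v, 0) t := by
    apply HasDerivAt.prodMk
    · have := ((hasDerivAt_id t).smul_const v).const_add x
      simpa using this
    · exact hasDerivAt_const _ _
  have h2 := (((HH_smooth γ hγ k).differentiable (by simp)) (x + t • v, v)).hasFDerivAt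
  exact h2.comp_hasDerivAt t h1

end jet

/-- Linear algebra for jets. -/
lemma exists_jet_combination {D : Type} [AddCommGroup D] [Module ℝ D] [FiniteDimensional ℝ D]
    (N : ℕ) (hN : finrank ℝ D < N) (P : ℕ → D) (hP : P 0 ≠ 0) :
    ∃ a : ℕ → ℝ, ∑ k ∈ Finset.range N, a k • P k = 0 ∧
      ∑ k ∈ Finset.range N, ((k : ℝ) * a k) • P (k - 1) ≠ 0 := by
  classical
  have hex : ∃ K, K < N ∧ ∃ b : ℕ → ℝ, b K ≠ 0 ∧ ∑ k ∈ Finset.range (K + 1), b k • P k = 0 := by
    have hdep : ¬ LinearIndependent ℝ (fun k : Fin N => P k) := by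
      intro h
      have := h.fintype_card_le_finrank
      rw [Fintype.card_fin] at this
      omega
    rw [Fintype.linearIndependent_iff] at hdep
    push Not at hdep
    obtain ⟨g, hg, i, hi⟩ := hdep
    set b : ℕ → ℝ := fun k => if h : k < N then g ⟨k, h⟩ else 0 with hb
    have hbs : ∑ k ∈ Finset.range N, b k • P k = 0 := by
      rw [Finset.sum_range, ← hg]
      apply Finset.sum_congr rfl
      intro k _
      simp [hb]
    set S : Finset ℕ := (Finset.range N).filter (fun k => b k ≠ 0) with hS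
    have hSne : S.Nonempty := ⟨i, by simp [hS, hb, hi]⟩
    set K := S.max' hSne with hK
    have hKS := S.max'_mem hSne
    rw [← hK, hS, Finset.mem_filter, Finset.mem_range] at hKS
    refine ⟨K, hKS.1, b, hKS.2, ?_⟩
    rw [← hbs]
    apply Finset.sum_subset
    · intro k hk
      rw [Finset.mem_range] at hk ⊢
      omega
    · intro k hk hk2
      rw [Finset.mem_range] at hk
      rw [Finset.mem_range] at hk2
      have : b k = 0 := by
        by_contra hne
        have hkS : k ∈ S := by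
          rw [hS, Finset.mem_filter, Finset.mem_range]
          exact ⟨hk, hne⟩
        have := S.le_max' k hkS
        omega
      rw [this, zero_smul]
  obtain ⟨hKN, b, hbK, hb⟩ := Nat.find_spec hex
  set K := Nat.find hex with hK
  have hK0 : K ≠ 0 := by
    intro h0
    rw [h0] at hb hbK
    simp only [zero_add, Finset.sum_range_one] at hb
    rcases smul_eq_zero.1 hb with h | h
    · exact hbK h
    · exact hP h
  obtain ⟨K', hK'⟩ := Nat.exists_eq_succ_of_ne_zero hK0
  set a : ℕ → ℝ := fun k => if k ≤ K then b k else 0 with ha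
  have hext : ∀ (G : ℕ → ℝ → D), (∀ k, G k 0 = 0) →
      ∑ k ∈ Finset.range N, G k (a k) = ∑ k ∈ Finset.range (K + 1), G k (b k) := by
    intro G hG
    have h1 : ∑ k ∈ Finset.range (K + 1), G k (b k) = ∑ k ∈ Finset.range (K + 1), G k (a k) := by
      apply Finset.sum_congr rfl
      intro k hk
      rw [Finset.mem_range] at hk
      simp only [ha, if_pos (by omega : k ≤ K)]
    rw [h1]
    symm
    apply Finset.sum_subset
    · intro k hk
      rw [Finset.mem_range] at hk ⊢
      omega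
    · intro k _ hk2
      rw [Finset.mem_range] at hk2
      simp only [ha, if_neg (by omega : ¬ k ≤ K)]
      exact hG k
  refine ⟨a, ?_, ?_⟩
  · rw [hext (fun k r => r • P k) (fun k => zero_smul _ _)]
    exact hb
  · rw [hext (fun k r => ((k : ℝ) * r) • P (k - 1)) (fun k => by simp)]
    intro h0
    have hlt : K' < K := by omega
    apply Nat.find_min hex (m := K') hlt
    refine ⟨by omega, fun j => ((j : ℝ) + 1) * b (j + 1), ?_, ?_⟩
    · apply mul_ne_zero (by positivity)
      have : K' + 1 = K := by omega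
      rw [this]
      exact hbK
    · rw [Finset.sum_range_succ'] at h0
      simp only [Nat.cast_zero, zero_mul, zero_smul, add_zero, Nat.add_sub_cancel] at h0
      have : K = K' + 1 := by omega
      rw [this] at h0
      rw [← h0]
      apply Finset.sum_congr rfl
      intro k _
      push_cast
      rfl

end Pool.Agent.Helper1.KakSmooth
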