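import Mathlib
import Pool.Agent.Helper1.KakSmooth.Jet

set_option autoImplicit false

open Set MeasureTheory Filter Topology Module
open scoped ContDiff NNReal ENNReal

namespace Pool.Agent.Helper1.KakSmooth

lemma dimH_image_le_of_contDiffAt {E F : Type} [NormedAddCommGroup E] [NormedSpace ℝ E]
    [FiniteDimensional ℝ E] [NormedAddCommGroup F] [NormedSpace ℝ F] (f : E → F) (s : Set E)
    (hf : ∀ x ∈ s, ContDiffAt ℝ ∞ f x) : dimH (f '' s) ≤ dimH s := by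
  apply dimH_image_le_of_locally_lipschitzOn
  intro x hx
  have h1 : ContDiffAt ℝ 1 f x := (hf x hx).of_le (by exact_mod_cast le_top)
  obtain ⟨K, t, ht, hK⟩ := h1.exists_lipschitzOnWith
  exact ⟨K, t, mem_nhdsWithin_of_mem_nhds ht, hK⟩

lemma volume_zero_of_dimH {S : Set ℝ} (h : dimH S < 1) : volume S = 0 := by
  have h1 : μH[((1 : ℝ≥0) : ℝ)] S = 0 := hausdorffMeasure_of_dimH_lt (by simpa using h)
  rw [NNReal.coe_one, hausdorffMeasure_real] at h1
  exact h1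

/-- The parameters at which a smooth function takes values in a small set with nonzero
derivative. -/
lemma null_of_deriv_ne (θ : ℝ → ℝ) (hθ : ContDiff ℝ ∞ θ) (A : Set ℝ) (hA : dimH A < 1) :
    volume {t : ℝ | θ t ∈ A ∧ deriv θ t ≠ 0} = 0 := by
  apply volume_zero_of_dimH
  refine lt_of_le_of_lt ?_ hA
  have hloc : ∀ t ∈ {t : ℝ | θ t ∈ A ∧ deriv θ t ≠ 0}, ∃ U ∈ 𝓝 t,
      dimH (U ∩ {t : ℝ | θ t ∈ A ∧ deriv θ t ≠ 0}) ≤ dimH A := by
    rintro t ⟨_, ht⟩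
    have h1 : HasDerivAt θ (deriv θ t) t := ((hθ.differentiable (by simp)) t).hasDerivAt
    have h2 := h1.hasFDerivAt_equiv ht
    obtain ⟨e, hes, heθ, hesymm, -⟩ := Sard.chart θ hθ t _ h2
    refine ⟨e.source, e.open_source.mem_nhds hes, ?_⟩
    refine le_trans (dimH_mono ?_) ((dimH_image_le_of_contDiffAt e.symm (A ∩ e.target)
      (fun y hy => hesymm y hy.2)).trans (dimH_mono inter_subset_left))
    rintro s ⟨hs, hsA, _⟩
    refine ⟨θ s, ⟨hsA, ?_⟩, ?_⟩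
    · rw [← heθ]; exact e.map_source hs
    · rw [← heθ]; exact e.left_inv hs
  choose! U hU hUn using hloc
  obtain ⟨C, hCs, hCc, hcov⟩ := TopologicalSpace.countable_cover_nhdsWithin
    (s := {t : ℝ | θ t ∈ A ∧ deriv θ t ≠ 0}) (f := U)
    (fun z hz => mem_nhdsWithin_of_mem_nhds (hU z hz))
  have hsub : {t : ℝ | θ t ∈ A ∧ deriv θ t ≠ 0} ⊆
      ⋃ z ∈ C, U z ∩ {t : ℝ | θ t ∈ A ∧ deriv θ t ≠ 0} := by
    intro t ht
    obtain ⟨z, hz, hz2⟩ := mem_iUnion₂.1 (hcov ht)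
    exact mem_iUnion₂.2 ⟨z, hz, hz2, ht⟩
  refine (dimH_mono hsub).trans ?_
  rw [dimH_bUnion hCc]
  exact iSup₂_le fun z hz => hUn z (hCs hz)

/-- Simple zeros form a countable set. -/
lemma countable_simple_zeros (ψ ψ' : ℝ → ℝ) (hψ : ∀ t, HasDerivAt ψ (ψ' t) t) :
    {t : ℝ | ψ t = 0 ∧ ψ' t ≠ 0}.Countable := by
  have hloc : ∀ t ∈ {t : ℝ | ψ t = 0 ∧ ψ' t ≠ 0}, ∃ U ∈ 𝓝 t, ∀ s ∈ U, ψ s = 0 → s = t := by
    rintro t ⟨_, ht2⟩
    have h1 := (hψ t).eventually_ne (c := 0) ht2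
    rw [eventually_nhdsWithin_iff] at h1
    refine ⟨_, h1, ?_⟩
    intro s hs hs0
    by_contra hne
    exact hs hne hs0
  choose! U hU hUn using hloc
  obtain ⟨C, hCs, hCc, hcov⟩ := TopologicalSpace.countable_cover_nhdsWithin
    (s := {t : ℝ | ψ t = 0 ∧ ψ' t ≠ 0}) (f := U)
    (fun z hz => mem_nhdsWithin_of_mem_nhds (hU z hz))
  refine hCc.mono ?_
  intro t ht
  obtain ⟨z, hz, hz2⟩ := mem_iUnion₂.1 (hcov ht)
  rw [hUn z (hCs hz) t hz2 ht.1]
  exact hz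

/-- On a line meeting `{γ ∈ A}` in positive length there is a point of high contact. -/
lemma fol_point {E : Type} [NormedAddCommGroup E] [NormedSpace ℝ E]
    (γ : E → ℝ) (hγ : ContDiff ℝ ∞ γ) (V : Set E) (A : Set ℝ) (hA : dimH A < 1) (x v : E)
    (hT : volume {t : ℝ | x + t • v ∈ V ∧ γ (x + t • v) ∈ A} ≠ 0) (N : ℕ) :
    ∃ t : ℝ, x + t • v ∈ V ∧ γ (x + t • v) ∈ A ∧
      ∀ k, 1 ≤ k → k ≤ N → HH γ k (x + t • v, v) = 0 := by
  set θ : ℝ → ℝ := fun t => γ (x + t • v) with hθ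
  have hθs : ContDiff ℝ ∞ θ := hγ.comp (contDiff_const.add (contDiff_id.smul contDiff_const))
  have hθd : ∀ t, deriv θ t = HH γ 1 (x + t • v, v) := by
    intro t
    exact (HH_line γ hγ 0 x v t).deriv
  have hn1 := null_of_deriv_ne θ hθs A hA
  have hn2 : ∀ k : ℕ, volume {t : ℝ | HH γ (k + 1) (x + t • v, v) = 0 ∧
      HH γ (k + 2) (x + t • v, v) ≠ 0} = 0 := by
    intro k
    exact (countable_simple_zeros _ _ (fun t => HH_line γ hγ (k + 1) x v t)).measure_zero _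
  by_contra hcon
  push Not at hcon
  apply hT
  have hsub : {t : ℝ | x + t • v ∈ V ∧ γ (x + t • v) ∈ A} ⊆
      {t : ℝ | θ t ∈ A ∧ deriv θ t ≠ 0} ∪ ⋃ k : ℕ, {t : ℝ | HH γ (k + 1) (x + t • v, v) = 0 ∧
      HH γ (k + 2) (x + t • v, v) ≠ 0} := by
    rintro t ⟨htV, htA⟩
    by_cases h1 : deriv θ t = 0
    · right
      by_contra hno
      rw [mem_iUnion] at hno
      push Not at hno
      have hall : ∀ k, HH γ (k + 1) (x + t • v, v) = 0 := by
        intro k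
        induction k with
        | zero => rw [← hθd]; exact h1
        | succ k ih =>
          by_contra hne
          exact hno k ⟨ih, hne⟩
      obtain ⟨k, hk1, _, hk3⟩ := hcon t htV htA
      apply hk3
      obtain ⟨k', rfl⟩ := Nat.exists_eq_succ_of_ne_zero (by omega : k ≠ 0)
      exact hall k'
    · exact Or.inl ⟨htA, h1⟩
  refine measure_mono_null hsub ?_
  rw [measure_union_null_iff]
  exact ⟨hn1, measure_iUnion_null hn2⟩

end Pool.Agent.Helper1.KakSmooth
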