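import Mathlib
import Pool.Agent.Helper1.KakSmooth.Line

set_option autoImplicit false

open Set MeasureTheory Filter Topology Module
open scoped ContDiff NNReal ENNReal

namespace Pool.Agent.Helper1.KakSmooth

section coord

variable {n : ℕ}

/-- the standard basis vectors -/
noncomputable def eb (k : Fin n) : EuclideanSpace ℝ (Fin n) := EuclideanSpace.single k (1 : ℝ)

/-- the coordinates other than `i` and `j` -/
abbrev Rest (i j : Fin n) : Type := (({i, j} : Finset (Fin n))ᶜ : Finset (Fin n)) → ℝ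

/-- the inclusion of the coordinates other than `i` and `j` -/
noncomputable def AA (i j : Fin n) : Rest i j →L[ℝ] EuclideanSpace ℝ (Fin n) :=
  ∑ k, (ContinuousLinearMap.proj (R := ℝ) (φ := fun _ => ℝ) k).smulRight (eb k.1)

lemma finrank_rest (i j : Fin n) (hj : j ≠ i) : finrank ℝ (Rest i j) = n - 2 := by
  rw [Module.finrank_fintype_fun_eq_card, Fintype.card_coe, Finset.card_compl,
    Finset.card_pair (Ne.symm hj), Fintype.card_fin]

lemma sum_eb (v : EuclideanSpace ℝ (Fin n)) : v = ∑ k, v k • eb k := by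
  ext m
  simp [eb, Finset.sum_apply, Pi.single_apply]

lemma decomp (i j : Fin n) (hj : j ≠ i) (v : EuclideanSpace ℝ (Fin n)) (hv : v i = 1) :
    v = eb i + AA i j (fun k => v k) + v j • eb j := by
  have h8 : AA i j (fun k => v k) = ∑ k ∈ ({i, j} : Finset (Fin n))ᶜ, v k • eb k := by
    rw [← Finset.sum_coe_sort]
    simp [AA, sum_apply]
  have h9 : v = ∑ k, v k • eb k := sum_eb v
  rw [← Finset.sum_compl_add_sum ({i, j} : Finset (Fin n)), ← h8,
    Finset.sum_pair (Ne.symm hj), hv, one_smul] at h9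
  conv_lhs => rw [h9]
  abel

lemma exists_coord (i : Fin n) (v : EuclideanSpace ℝ (Fin n)) (hv : v i = 1)
    (Q : EuclideanSpace ℝ (Fin n) →L[ℝ] ℝ) (hQ : Q ≠ 0) (hQv : Q v = 0) :
    ∃ j, j ≠ i ∧ Q (eb j) ≠ 0 := by
  have hQs : ∀ w : EuclideanSpace ℝ (Fin n), Q w = ∑ k, w k * Q (eb k) := by
    intro w
    conv_lhs => rw [sum_eb w]
    rw [map_sum]
    apply Finset.sum_congr rfl
    intro k _
    rw [map_smul, smul_eq_mul]
  by_contra hcon
  push Not at hcon
  have h6 : Q (eb i) = 0 := by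
    have h7 := hQs v
    rw [hQv, Finset.sum_eq_single i (fun k _ hk => by rw [hcon k hk, mul_zero])
      (fun h => absurd (Finset.mem_univ i) h), hv, one_mul] at h7
    exact h7.symm
  apply hQ
  apply ContinuousLinearMap.ext
  intro w
  change Q w = 0
  rw [hQs w]
  apply Finset.sum_eq_zero
  intro k _
  by_cases hk : k = i
  · rw [hk, h6, mul_zero]
  · rw [hcon k hk, mul_zero]

/-- the affine parametrization of the directions -/
noncomputable def vv (i j : Fin n) (p : Rest i j × ℝ) : EuclideanSpace ℝ (Fin n) :=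
  eb i + AA i j p.1 + p.2 • eb j

lemma vv_lip (i j : Fin n) : ∃ C : ℝ≥0, LipschitzWith C (vv i j) := by
  set T : Rest i j × ℝ →L[ℝ] EuclideanSpace ℝ (Fin n) :=
    AA i j ∘L (ContinuousLinearMap.fst ℝ (Rest i j) ℝ) +
    (ContinuousLinearMap.snd ℝ (Rest i j) ℝ).smulRight (eb j) with hT
  refine ⟨‖T‖₊, ?_⟩
  intro p q
  have h := T.lipschitz p q
  have h2 : ∀ p : Rest i j × ℝ, vv i j p = eb i + T p := by
    intro p
    simp only [vv, hT]
    simp [add_assoc]
  rw [h2, h2]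
  simpa using h

/-- Transfer of a dimension bound to directions. -/
lemma dim_transfer (i j : Fin n) (S : Set ((Rest i j × ℝ) × ℝ))
    (D : Set (EuclideanSpace ℝ (Fin n)))
    (h : ∀ v ∈ D, ∃ q ∈ S, v = vv i j (q.1.1, q.2)) : dimH D ≤ dimH S := by
  obtain ⟨C, hC⟩ := vv_lip i j
  have hpr := (LipschitzWith.prod_fst (α := Rest i j) (β := ℝ)).comp
    (LipschitzWith.prod_fst (α := Rest i j × ℝ) (β := ℝ))
  have hpr2 := hpr.prodMk (LipschitzWith.prod_snd (α := Rest i j × ℝ) (β := ℝ))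
  have hall := hC.comp hpr2
  refine le_trans (dimH_mono ?_) (hall.dimH_image_le S)
  intro v hv
  obtain ⟨q, hq, hvq⟩ := h v hv
  exact ⟨q, hq, hvq.symm⟩

lemma vv_hasFDerivAt (i j : Fin n) (ξ : Rest i j) (l : ℝ) :
    HasFDerivAt (fun z : ℝ => vv i j (ξ, z)) ((ContinuousLinearMap.id ℝ ℝ).smulRight (eb j)) l := by
  have h := ((hasFDerivAt_id (𝕜 := ℝ) l).smul_const (eb j)).const_add (eb i + AA i j ξ)
  exact h

lemma vv_contDiff (i j : Fin n) : ContDiff ℝ ∞ (vv i j) := by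
  unfold vv
  have hA : ContDiff ℝ ∞ (AA i j) := (AA i j).contDiff
  fun_prop

end coord

section fol

variable {n : ℕ}

/-- the family of functions for the foliated case -/
noncomputable def FF (γ : EuclideanSpace ℝ (Fin n) → ℝ) (i j : Fin n) (N : ℕ) (k : Fin N) :
    (Rest i j × ℝ) × (ℝ × EuclideanSpace ℝ (Fin n)) → ℝ :=
  fun p => HH γ k (p.2.2, vv i j (p.1.1, p.2.1)) - (if (k : ℕ) = 0 then p.1.2 else 0)

lemma FF_smooth (γ : EuclideanSpace ℝ (Fin n) → ℝ) (hγ : ContDiff ℝ ∞ γ) (i j : Fin n) (N : ℕ)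
    (k : Fin N) : ContDiff ℝ ∞ (FF γ i j N k) := by
  unfold FF
  apply ContDiff.sub
  · apply (HH_smooth γ hγ k).comp
    apply ContDiff.prodMk
    · fun_prop
    · apply (vv_contDiff i j).comp
      fun_prop
  · split_ifs
    · fun_prop
    · fun_prop

lemma FF_fderiv (γ : EuclideanSpace ℝ (Fin n) → ℝ) (hγ : ContDiff ℝ ∞ γ) (i j : Fin n) (N : ℕ)
    (k : Fin N) (ξ : Rest i j) (c l : ℝ) (x : EuclideanSpace ℝ (Fin n))
    (u : ℝ × EuclideanSpace ℝ (Fin n)) :
    fderiv ℝ (fun z => FF γ i j N k ((ξ, c), z)) (l, x) u =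
      fderiv ℝ (HH γ k) (x, vv i j (ξ, l)) (u.2, 0) +
        u.1 * fderiv ℝ (HH γ k) (x, vv i j (ξ, l)) (0, eb j) := by
  have h1 : HasFDerivAt (fun z : ℝ × EuclideanSpace ℝ (Fin n) => (z.2, vv i j (ξ, z.1)))
      ((ContinuousLinearMap.snd ℝ ℝ (EuclideanSpace ℝ (Fin n))).prod
        (((ContinuousLinearMap.id ℝ ℝ).smulRight (eb j)) ∘L
          (ContinuousLinearMap.fst ℝ ℝ (EuclideanSpace ℝ (Fin n))))) (l, x) :=
    hasFDerivAt_snd.prodMk (HasFDerivAt.comp (g := fun z : ℝ => vv i j (ξ, z))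
      (f := fun z : ℝ × EuclideanSpace ℝ (Fin n) => z.1) (l, x) (vv_hasFDerivAt i j ξ l)
      hasFDerivAt_fst)
  have h2 := ((HH_smooth γ hγ k).differentiable (by simp)) (x, vv i j (ξ, l))
  have h3 : HasFDerivAt (fun z : ℝ × EuclideanSpace ℝ (Fin n) =>
      HH γ k (z.2, vv i j (ξ, z.1))) _ (l, x) :=
    HasFDerivAt.comp (l, x) h2.hasFDerivAt h1
  have h4 : HasFDerivAt (fun z => FF γ i j N k ((ξ, c), z)) _ (l, x) :=
    h3.sub_const (if (k : ℕ) = 0 then c else 0)
  rw [h4.fderiv]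
  change fderiv ℝ (HH γ k) (x, vv i j (ξ, l)) (u.2, u.1 • eb j) = _
  have h5 : ((u.2, u.1 • eb j) : EuclideanSpace ℝ (Fin n) × EuclideanSpace ℝ (Fin n)) =
      (u.2, 0) + u.1 • (0, eb j) := by simp
  rw [h5, map_add, map_smul, smul_eq_mul]

end fol

end Pool.Agent.Helper1.KakSmooth
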