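import Mathlib
import Pool.Agent.Helper1.KakSmooth.Coord

set_option autoImplicit false

open Set MeasureTheory Filter Topology Module
open scoped ContDiff NNReal ENNReal

namespace Pool.Agent.Helper1.KakSmooth

variable {n : ℕ}

lemma fol_config (γ : EuclideanSpace ℝ (Fin n) → ℝ) (hγ : ContDiff ℝ ∞ γ)
    (x v : EuclideanSpace ℝ (Fin n)) (i : Fin n) (hv : v i = 1) (N : ℕ)
    (hN : finrank ℝ (EuclideanSpace ℝ (Fin n) →L[ℝ] ℝ) < N)
    (h0 : fderiv ℝ γ x ≠ 0) (hH : ∀ k, 1 ≤ k → k ≤ N → HH γ k (x, v) = 0) :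
    ∃ j, j ≠ i ∧ ∃ a : Fin N → ℝ, (∀ k : Fin N, FF γ i j N k (((fun m => v m), γ x), (v j, x)) = 0) ∧
      ∑ k, a k • fderiv ℝ (fun z => FF γ i j N k (((fun m => v m), γ x), z)) (v j, x) =
        ContinuousLinearMap.fst ℝ ℝ (EuclideanSpace ℝ (Fin n)) := by
  set P : ℕ → (EuclideanSpace ℝ (Fin n) →L[ℝ] ℝ) := fun k =>
    fderiv ℝ (HH γ k) (x, v) ∘L ContinuousLinearMap.inl ℝ _ _ with hP
  have hPa : ∀ k η, P k η = fderiv ℝ (HH γ k) (x, v) (η, 0) := fun k η => rfl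
  have hP0 : P 0 ≠ 0 := by
    intro h
    apply h0
    apply ContinuousLinearMap.ext
    intro η
    have h1 := congrArg (fun T : EuclideanSpace ℝ (Fin n) →L[ℝ] ℝ => T η) h
    simp only [hPa] at h1
    rw [HH_horiz_zero γ hγ] at h1
    exact h1
  obtain ⟨a, ha1, ha2⟩ := exists_jet_combination N hN P hP0
  set w : EuclideanSpace ℝ (Fin n) →L[ℝ] ℝ :=
    ∑ k ∈ Finset.range N, ((k : ℝ) * a k) • P (k - 1) with hw
  have hwa : ∀ η, w η = ∑ k ∈ Finset.range N, ((k : ℝ) * a k) * P (k - 1) η := by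
    intro η
    rw [hw, sum_apply]
    rfl
  have hwv : w v = 0 := by
    rw [hwa]
    apply Finset.sum_eq_zero
    intro k hk
    rw [Finset.mem_range] at hk
    rcases Nat.eq_zero_or_pos k with h | h
    · rw [h]; simp
    · obtain ⟨k', rfl⟩ := Nat.exists_eq_succ_of_ne_zero (by omega : k ≠ 0)
      have h3 : P (k'.succ - 1) v = HH γ (k' + 1) (x, v) := rfl
      rw [h3, hH (k' + 1) (by omega) (by omega), mul_zero]
  obtain ⟨j, hji, hwj⟩ := exists_coord i v hv w ha2 hwv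
  refine ⟨j, hji, fun k => (w (eb j))⁻¹ * a k, ?_, ?_⟩
  · intro k
    have hvv : vv i j ((fun m => v m), v j) = v := (decomp i j hji v hv).symm
    simp only [FF, hvv]
    split_ifs with hk
    · rw [hk]
      change γ x - γ x = 0
      exact sub_self _
    · rw [hH k (by omega) (by omega), sub_zero]
  · apply ContinuousLinearMap.ext
    intro u
    have hvv : vv i j ((fun m => v m), v j) = v := (decomp i j hji v hv).symm
    have h4 : ∀ k : Fin N, fderiv ℝ (fun z => FF γ i j N k (((fun m => v m), γ x), z)) (v j, x) u =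
        P k u.2 + u.1 * ((k : ℝ) * P (k - 1) (eb j)) := by
      intro k
      rw [FF_fderiv γ hγ, hvv]
      congr 2
      rcases Nat.eq_zero_or_pos (k : ℕ) with h | h
      · rw [h, HH_vert_zero γ hγ]
        simp
      · obtain ⟨k', hk'⟩ := Nat.exists_eq_succ_of_ne_zero (by omega : (k : ℕ) ≠ 0)
        rw [hk', HH_vert γ hγ]
        push_cast
        rfl
    rw [sum_apply]
    have h5 : ∀ k : Fin N, (((w (eb j))⁻¹ * a k) •
        fderiv ℝ (fun z => FF γ i j N k (((fun m => v m), γ x), z)) (v j, x)) u =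
        (w (eb j))⁻¹ * ((a k • P k) u.2) +
          (w (eb j))⁻¹ * u.1 * (((k : ℝ) * a k) * P (k - 1) (eb j)) := by
      intro k
      rw [smul_apply, smul_apply, smul_eq_mul, smul_eq_mul, h4 k]
      ring
    rw [Finset.sum_congr rfl (fun k _ => h5 k), Finset.sum_add_distrib, ← Finset.mul_sum,
      ← Finset.mul_sum]
    have h6 : ∑ k : Fin N, (a k • P k) u.2 = 0 := by
      rw [← Finset.sum_range (fun k => (a k • P k) u.2), ← sum_apply, ha1]
      rfl
    have h7 : ∑ k : Fin N, (((k : ℕ) : ℝ) * a k) * P ((k : ℕ) - 1) (eb j) = w (eb j) := by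
      rw [hwa, Finset.sum_range]
    rw [h6, h7]
    simp only [mul_zero, zero_add, ContinuousLinearMap.coe_fst']
    field_simp

/-- Directions of the lines meeting a leafwise saturated set in positive length. -/
lemma fol_dim (γ : EuclideanSpace ℝ (Fin n) → ℝ) (hγ : ContDiff ℝ ∞ γ)
    (V : Set (EuclideanSpace ℝ (Fin n))) (hV : ∀ y ∈ V, fderiv ℝ γ y ≠ 0) (A : Set ℝ)
    (hA : dimH A < 1) (i : Fin n) :
    dimH {v : EuclideanSpace ℝ (Fin n) | v i = 1 ∧
      ∃ x, volume {t : ℝ | x + t • v ∈ V ∧ γ (x + t • v) ∈ A} ≠ 0} ≤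
      ((n - 2 : ℕ) : ℝ≥0∞) + dimH A := by
  set N := finrank ℝ (EuclideanSpace ℝ (Fin n) →L[ℝ] ℝ) + 1 with hN
  set B : Fin n → Set (EuclideanSpace ℝ (Fin n)) := fun j => {v | ∃ q : (Rest i j × ℝ) × ℝ,
    (q.1.2 ∈ A ∧ ∃ (y : EuclideanSpace ℝ (Fin n)) (a : Fin N → ℝ),
      (∀ k, FF γ i j N k (q.1, (q.2, y)) = 0) ∧
      ∑ k, a k • fderiv ℝ (fun z => FF γ i j N k (q.1, z)) (q.2, y) =
        ContinuousLinearMap.fst ℝ ℝ (EuclideanSpace ℝ (Fin n))) ∧
    v = vv i j (q.1.1, q.2)} with hB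
  have hBdim : ∀ j, j ≠ i → dimH (B j) ≤ ((n - 2 : ℕ) : ℝ≥0∞) + dimH A := by
    intro j hj
    have h1 := mult_dim A N (FF γ i j N) (FF_smooth γ hγ i j N)
    rw [finrank_rest i j hj] at h1
    refine le_trans (dim_transfer i j _ (B j) ?_) h1
    rintro v ⟨q, hq, hv⟩
    exact ⟨q, hq, hv⟩
  have hsub : {v : EuclideanSpace ℝ (Fin n) | v i = 1 ∧
      ∃ x, volume {t : ℝ | x + t • v ∈ V ∧ γ (x + t • v) ∈ A} ≠ 0} ⊆
      ⋃ j : {j : Fin n // j ≠ i}, B j := by
    rintro v ⟨hvi, x, hT⟩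
    obtain ⟨t, htV, htA, hH⟩ := fol_point γ hγ V A hA x v hT N
    obtain ⟨j, hji, a, h1, h2⟩ := fol_config γ hγ (x + t • v) v i hvi N (Nat.lt_succ_self _)
      (hV _ htV) hH
    exact mem_iUnion.2 ⟨⟨j, hji⟩, (((fun m => v m), γ (x + t • v)), v j),
      ⟨htA, x + t • v, a, h1, h2⟩, decomp i j hji v hvi⟩
  refine (dimH_mono hsub).trans ?_
  rw [dimH_iUnion]
  apply iSup_le
  rintro ⟨j, hj⟩
  exact hBdim j hj

end Pool.Agent.Helper1.KakSmooth
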