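import Mathlib
import Pool.Agent.Helper1.KakSmooth.Fol
import Pool.Agent.Helper1.Sard.ProdDim

set_option autoImplicit false

open Set MeasureTheory Filter Topology Module
open scoped ContDiff NNReal ENNReal

namespace Pool.Agent.Helper1.KakSmooth

section family

variable {E : Type} [NormedAddCommGroup E] [NormedSpace ℝ E] [FiniteDimensional ℝ E]

omit [FiniteDimensional ℝ E] in
lemma part_x (f : E × ℝ → ℝ) (hf : ContDiff ℝ ∞ f) (y : E) (c : ℝ) :
    fderiv ℝ (fun y => f (y, c)) y = fderiv ℝ f (y, c) ∘L ContinuousLinearMap.inl ℝ E ℝ := by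
  have h1 : HasFDerivAt (fun y : E => (y, c)) (ContinuousLinearMap.inl ℝ E ℝ) y :=
    hasFDerivAt_prodMk_left y c
  have h2 := ((hf.differentiable (by simp)) (y, c)).hasFDerivAt
  exact (HasFDerivAt.comp y h2 h1).fderiv

/-- Solving `f (y, c) = 0` for `c`. -/
lemma solve_c (f : E × ℝ → ℝ) (hf : ContDiff ℝ ∞ f) (x0 : E) (c0 : ℝ) (h0 : f (x0, c0) = 0)
    (hc : fderiv ℝ f (x0, c0) (0, 1) ≠ 0) :
    ∃ V ∈ 𝓝 x0, ∃ J ∈ 𝓝 c0, ∃ γ : E → ℝ, ContDiff ℝ ∞ γ ∧
      (∀ y ∈ V, ∀ c ∈ J, f (y, c) = 0 → c = γ y) ∧ ∀ y ∈ V, f (y, γ y) = 0 := by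
  have : CompleteSpace E := FiniteDimensional.complete ℝ E
  set L : E × ℝ →L[ℝ] ℝ := fderiv ℝ f (x0, c0) with hL
  set κ : ℝ := L (0, 1) with hκ
  have hsplit : ∀ p : E × ℝ, L p = L (p.1, 0) + p.2 * κ := by
    intro p
    have h1 : p = (p.1, 0) + p.2 • ((0 : E), (1 : ℝ)) := by
      apply Prod.ext <;> simp
    conv_lhs => rw [h1]
    rw [map_add, map_smul, smul_eq_mul]
  set m : E →L[ℝ] ℝ := L ∘L ContinuousLinearMap.inl ℝ E ℝ with hm
  have hm' : ∀ x, m x = L (x, 0) := fun x => rfl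
  set e0 : (E × ℝ) ≃L[ℝ] (E × ℝ) := ContinuousLinearEquiv.equivOfInverse
    ((ContinuousLinearMap.fst ℝ E ℝ).prod L)
    ((ContinuousLinearMap.fst ℝ E ℝ).prod
      (κ⁻¹ • (ContinuousLinearMap.snd ℝ E ℝ - m ∘L ContinuousLinearMap.fst ℝ E ℝ)))
    (by
      intro p
      apply Prod.ext
      · rfl
      · change κ⁻¹ * (L p - L (p.1, 0)) = p.2
        rw [hsplit p]
        field_simp
        ring)
    (by
      intro p
      apply Prod.ext
      · rfl
      · change L (p.1, κ⁻¹ * (p.2 - L (p.1, 0))) = p.2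
        rw [hsplit]
        simp only
        field_simp
        ring) with he0
  set Φ : E × ℝ → E × ℝ := fun p => (p.1, f p) with hΦd
  have hΦ : ContDiff ℝ ∞ Φ := contDiff_fst.prodMk hf
  have hΦ' : HasFDerivAt Φ (e0 : E × ℝ →L[ℝ] E × ℝ) (x0, c0) := by
    have h1 : HasFDerivAt f L (x0, c0) := ((hf.differentiable (by simp)) (x0, c0)).hasFDerivAt
    exact hasFDerivAt_fst.prodMk h1
  obtain ⟨e, hes, heΦ, hesymm, -⟩ := Sard.chart Φ hΦ (x0, c0) _ hΦ'
  have ht0 : (x0, (0 : ℝ)) ∈ e.target := by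
    have := e.map_source hes
    rw [heΦ] at this
    simpa [hΦd, h0] using this
  set ι : E → E × ℝ := fun y => (y, 0) with hι
  have hιs : ContDiff ℝ ∞ ι := contDiff_id.prodMk contDiff_const
  have hO : ι ⁻¹' e.target ∈ 𝓝 x0 :=
    hιs.continuous.continuousAt.preimage_mem_nhds (e.open_target.mem_nhds ht0)
  obtain ⟨R, hR, hRO⟩ := Metric.mem_nhds_iff.1 hO
  set b : ContDiffBump x0 := ⟨R / 4, R / 2, by linarith, by linarith⟩ with hb
  have hsupp : tsupport b ⊆ ι ⁻¹' e.target := by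
    rw [b.tsupport_eq]
    refine subset_trans ?_ hRO
    apply Metric.closedBall_subset_ball
    change R / 2 < R
    linarith
  set γ : E → ℝ := fun y => b y * (e.symm (ι y)).2 with hγ
  have hγs : ContDiff ℝ ∞ γ := by
    rw [contDiff_iff_contDiffAt]
    intro y
    by_cases hy : ι y ∈ e.target
    · apply ContDiffAt.mul b.contDiff.contDiffAt
      exact contDiff_snd.contDiffAt.comp y ((hesymm _ hy).comp y hιs.contDiffAt)
    · have hy' : y ∉ tsupport b := fun h => hy (hsupp h)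
      have hopen : (tsupport b)ᶜ ∈ 𝓝 y := (isClosed_tsupport _).isOpen_compl.mem_nhds hy'
      have hev : γ =ᶠ[𝓝 y] fun _ => 0 := by
        filter_upwards [hopen] with z hz
        have : b z = 0 := image_eq_zero_of_notMem_tsupport hz
        simp [hγ, this]
      exact contDiffAt_const.congr_of_eventuallyEq hev
  obtain ⟨V, hV, J, hJ, hVJ⟩ := mem_nhds_prod_iff.1 (e.open_source.mem_nhds hes)
  refine ⟨V ∩ Metric.ball x0 (R / 4), inter_mem hV (Metric.ball_mem_nhds _ (by linarith)),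
    J, hJ, γ, hγs, ?_, ?_⟩
  · rintro y ⟨hyV, hyb⟩ c hcJ hfy
    have hb1 : b y = 1 := b.one_of_mem_closedBall (Metric.ball_subset_closedBall hyb)
    have h1 : e (y, c) = ι y := by
      rw [heΦ]
      simp [hΦd, hι, hfy]
    have h2 := e.left_inv (hVJ (mk_mem_prod hyV hcJ))
    rw [h1] at h2
    simp only [hγ, hb1, one_mul]
    rw [h2]
  · rintro y ⟨hyV, hyb⟩
    have hb1 : b y = 1 := b.one_of_mem_closedBall (Metric.ball_subset_closedBall hyb)
    have hyt : ι y ∈ e.target := by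
      apply hRO
      exact Metric.ball_subset_ball (by linarith) hyb
    have h1 := e.right_inv hyt
    rw [heΦ] at h1
    have h2 : (e.symm (ι y)).1 = y := congrArg Prod.fst h1
    have h3 : f (e.symm (ι y)) = 0 := congrArg Prod.snd h1
    simp only [hγ, hb1, one_mul]
    have h4 : ((y, (e.symm (ι y)).2) : E × ℝ) = e.symm (ι y) := Prod.ext h2.symm rfl
    rw [h4]
    exact h3

/-- splitting off the kernel of a nonzero linear form -/
lemma split_ker (L : E →L[ℝ] ℝ) (hL : L ≠ 0) :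
    ∃ (K : Submodule ℝ E) (π : E →L[ℝ] K) (e0 : E ≃L[ℝ] (K × ℝ)),
      finrank ℝ K + 1 = finrank ℝ E ∧ ∀ u, e0 u = (π u, L u) := by
  have : CompleteSpace E := FiniteDimensional.complete ℝ E
  have hs : Function.Surjective L := by
    obtain ⟨u, hu⟩ : ∃ u, L u ≠ 0 := by
      by_contra hcon
      push Not at hcon
      exact hL (ContinuousLinearMap.ext hcon)
    intro y
    refine ⟨(y / L u) • u, ?_⟩
    rw [map_smul, smul_eq_mul]
    field_simp
  set K : Submodule ℝ E := LinearMap.ker (L : E →ₗ[ℝ] ℝ) with hK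
  obtain ⟨π, hπ⟩ : K.ClosedComplemented := L.ker_closedComplemented_of_finiteDimensional_range
  have hmemK : ∀ u : E, u ∈ K ↔ L u = 0 := by intro u; simp [hK]
  have hbij : Function.Bijective (π.prod L) := by
    constructor
    · rw [injective_iff_map_eq_zero]
      intro u hu
      have h1 : L u = 0 := congrArg Prod.snd hu
      have h2 : π u = 0 := congrArg Prod.fst hu
      have h3 := hπ ⟨u, (hmemK u).2 h1⟩
      rw [h2] at h3
      exact (congrArg Subtype.val h3).symm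
    · rintro ⟨k, y⟩
      obtain ⟨u, hu⟩ := hs y
      refine ⟨u + ((k - π u : K) : E), ?_⟩
      have h1 : L ((k - π u : K) : E) = 0 := (hmemK _).1 (k - π u).2
      have h2 := hπ (k - π u)
      simp only [ContinuousLinearMap.prod_apply, map_add, h1, h2, hu]
      simp
  refine ⟨K, π, ContinuousLinearEquiv.ofBijective (π.prod L)
    (LinearMap.ker_eq_bot.2 hbij.1) (LinearMap.range_eq_top.2 hbij.2), ?_, fun u => rfl⟩
  have h0 : (L : E →ₗ[ℝ] ℝ) ≠ 0 := by
    intro h0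
    apply hL
    ext u
    have := congrArg (fun g : E →ₗ[ℝ] ℝ => g u) h0
    simpa using this
  exact Module.Dual.finrank_ker_add_one_of_ne_zero (f := (L : E →ₗ[ℝ] ℝ)) h0

/-- Lower bound for the dimension of a saturated set. -/
lemma sat_lower (γ : E → ℝ) (hγ : ContDiff ℝ ∞ γ) (x0 : E) (h0 : fderiv ℝ γ x0 ≠ 0) (V : Set E)
    (hV : V ∈ 𝓝 x0) :
    ∃ J ∈ 𝓝 (γ x0), ∀ A ⊆ J, A.Nonempty →
      ((finrank ℝ E - 1 : ℕ) : ℝ≥0∞) + dimH A ≤ dimH {y | y ∈ V ∧ γ y ∈ A} := by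
  have : CompleteSpace E := FiniteDimensional.complete ℝ E
  obtain ⟨K, π, e0, hKrank, he0⟩ := split_ker (fderiv ℝ γ x0) h0
  set Φ : E → K × ℝ := fun y => (π (y - x0), γ y) with hΦd
  have hΦ : ContDiff ℝ ∞ Φ := (π.contDiff.comp (contDiff_id.sub contDiff_const)).prodMk hγ
  have hΦ' : HasFDerivAt Φ (e0 : E →L[ℝ] K × ℝ) x0 := by
    have h1 : HasFDerivAt γ (fderiv ℝ γ x0) x0 := ((hγ.differentiable (by simp)) x0).hasFDerivAt
    have h2 : HasFDerivAt (fun z => π (z - x0)) π x0 :=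
      π.hasFDerivAt.comp x0 ((hasFDerivAt_id x0).sub_const x0)
    refine (h2.prodMk h1).congr_fderiv ?_
    apply ContinuousLinearMap.ext
    intro u
    exact (he0 u).symm
  obtain ⟨e, hes, heΦ, hesymm, -⟩ := Sard.chart Φ hΦ x0 _ hΦ'
  have hΦx0 : Φ x0 = (0, γ x0) := by simp [hΦd]
  have ht0 : ((0 : K), γ x0) ∈ e.target := by
    have := e.map_source hes
    rwa [heΦ, hΦx0] at this
  have hsx0 : e.symm ((0 : K), γ x0) = x0 := by
    rw [← hΦx0, ← heΦ]
    exact e.left_inv hes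
  have hcont : ContinuousAt e.symm ((0 : K), γ x0) := (hesymm _ ht0).continuousAt
  have hpre : e.target ∩ e.symm ⁻¹' V ∈ 𝓝 ((0 : K), γ x0) := by
    apply inter_mem (e.open_target.mem_nhds ht0)
    apply hcont.preimage_mem_nhds
    rw [hsx0]
    exact hV
  obtain ⟨B, hB, J, hJ, hBJ⟩ := mem_nhds_prod_iff.1 hpre
  obtain ⟨r, hr, hrB⟩ := Metric.mem_nhds_iff.1 hB
  refine ⟨J, hJ, ?_⟩
  intro A hAJ hAne
  have h1 := Sard.prod_lower K r hr A hAne
  have hfr : finrank ℝ K = finrank ℝ E - 1 := by omega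
  rw [hfr] at h1
  refine h1.trans ?_
  have hsub : (Metric.ball (0 : K) r) ×ˢ A ⊆ Φ '' {y | y ∈ V ∧ γ y ∈ A} := by
    rintro ⟨k, a⟩ ⟨hk, ha⟩
    have hmem := hBJ (mk_mem_prod (hrB hk) (hAJ ha))
    have h2 := e.right_inv hmem.1
    rw [heΦ] at h2
    refine ⟨e.symm (k, a), ⟨hmem.2, ?_⟩, h2⟩
    have h3 : γ (e.symm (k, a)) = a := congrArg Prod.snd h2
    rw [h3]
    exact ha
  refine (dimH_mono hsub).trans ?_
  exact dimH_image_le_of_contDiffAt Φ _ (fun y _ => hΦ.contDiffAt)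

/-- Local structure of a one-parameter family of hypersurfaces near a point where the parameter
is determined by the position. -/
lemma family_chart (f : E × ℝ → ℝ) (hf : ContDiff ℝ ∞ f) (x0 : E) (c0 : ℝ)
    (h0 : f (x0, c0) = 0) (hx : fderiv ℝ (fun y => f (y, c0)) x0 ≠ 0)
    (hc : fderiv ℝ f (x0, c0) (0, 1) ≠ 0) :
    ∃ V ∈ 𝓝 x0, ∃ J ∈ 𝓝 c0, ∃ γ : E → ℝ, ContDiff ℝ ∞ γ ∧
      (∀ y ∈ V, ∀ c ∈ J, f (y, c) = 0 → c = γ y) ∧ (∀ y ∈ V, fderiv ℝ γ y ≠ 0) ∧
      ∀ A ⊆ J, A.Nonempty → ((finrank ℝ E - 1 : ℕ) : ℝ≥0∞) + dimH A ≤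
        dimH {y | ∃ c ∈ A, f (y, c) = 0 ∧ fderiv ℝ (fun y => f (y, c)) y ≠ 0} := by
  obtain ⟨V1, hV1, J1, hJ1, γ, hγ, h1, h2⟩ := solve_c f hf x0 c0 h0 hc
  have hγ0 : γ x0 = c0 := (h1 x0 (mem_of_mem_nhds hV1) c0 (mem_of_mem_nhds hJ1) h0).symm
  -- the partial derivative in `x` stays nonzero
  have hfx : Continuous (fun y : E => fderiv ℝ f (y, γ y) ∘L ContinuousLinearMap.inl ℝ E ℝ) := by
    have h3 : Continuous (fun y : E => fderiv ℝ f (y, γ y)) :=
      (hf.continuous_fderiv (by simp)).comp (continuous_id.prodMk hγ.continuous)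
    exact h3.clm_comp continuous_const
  have hfx0 : fderiv ℝ f (x0, γ x0) ∘L ContinuousLinearMap.inl ℝ E ℝ ≠ 0 := by
    rw [← part_x f hf, hγ0]
    exact hx
  have hV2 : {y : E | fderiv ℝ f (y, γ y) ∘L ContinuousLinearMap.inl ℝ E ℝ ≠ 0} ∈ 𝓝 x0 :=
    hfx.continuousAt.preimage_mem_nhds (isOpen_ne.mem_nhds hfx0)
  set V : Set E := interior V1 ∩ {y : E | fderiv ℝ f (y, γ y) ∘L ContinuousLinearMap.inl ℝ E ℝ ≠ 0}
    with hVd
  have hV : V ∈ 𝓝 x0 := inter_mem (interior_mem_nhds.2 hV1) hV2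
  have hγne : ∀ y ∈ V, fderiv ℝ γ y ≠ 0 := by
    rintro y ⟨hy1, hy2⟩ hzero
    apply hy2
    have hgr : HasFDerivAt (fun z : E => (z, γ z)) ((ContinuousLinearMap.id ℝ E).prod 0) y := by
      have h4 : HasFDerivAt γ (0 : E →L[ℝ] ℝ) y := by
        rw [← hzero]
        exact ((hγ.differentiable (by simp)) y).hasFDerivAt
      exact (hasFDerivAt_id y).prodMk h4
    have h5 : HasFDerivAt (fun z : E => f (z, γ z))
        (fderiv ℝ f (y, γ y) ∘L ((ContinuousLinearMap.id ℝ E).prod 0)) y :=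
      HasFDerivAt.comp y ((hf.differentiable (by simp)) (y, γ y)).hasFDerivAt hgr
    have h6 : (fun z : E => f (z, γ z)) =ᶠ[𝓝 y] fun _ => 0 := by
      filter_upwards [isOpen_interior.mem_nhds hy1] with z hz
      exact h2 z (interior_subset hz)
    have h7 := h5.fderiv
    rw [h6.fderiv_eq] at h7
    simp only [fderiv_fun_const, Pi.zero_apply] at h7
    rw [h7]
    rfl
  obtain ⟨J2, hJ2, hlow⟩ := sat_lower γ hγ x0 (hγne x0 (mem_of_mem_nhds hV)) V hV
  rw [hγ0] at hJ2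
  refine ⟨V, hV, J1 ∩ J2, inter_mem hJ1 hJ2, γ, hγ, ?_, hγne, ?_⟩
  · intro y hy c hc hfy
    exact h1 y (interior_subset hy.1) c hc.1 hfy
  · intro A hA hAne
    refine (hlow A (hA.trans inter_subset_right) hAne).trans (dimH_mono ?_)
    rintro y ⟨hyV, hyA⟩
    refine ⟨γ y, hyA, h2 y (interior_subset hyV.1), ?_⟩
    rw [part_x f hf]
    exact hyV.2

end family

end Pool.Agent.Helper1.KakSmooth
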