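import Mathlib
import Pool.Agent.Helper1.KakSmooth.Fol
import Pool.Agent.Helper1.KakSmooth.Family

set_option autoImplicit false

open Set MeasureTheory Filter Topology Module
open scoped ContDiff NNReal ENNReal

namespace Pool.Agent.Helper1.KakSmooth

/-- The times solving an equation with nonzero time derivative for a parameter in a small set. -/
lemma null_param {Q : Type} [NormedAddCommGroup Q] [NormedSpace ℝ Q] [FiniteDimensional ℝ Q]
    (ψ : ℝ × Q → ℝ) (hψ : ContDiff ℝ ∞ ψ) (B : Set Q) (hB : dimH B < 1) :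
    volume {t : ℝ | ∃ c ∈ B, ψ (t, c) = 0 ∧ fderiv ℝ ψ (t, c) (1, 0) ≠ 0} = 0 := by
  have : CompleteSpace Q := FiniteDimensional.complete ℝ Q
  apply volume_zero_of_dimH
  refine lt_of_le_of_lt ?_ hB
  set Z : Set (ℝ × Q) := {z | z.2 ∈ B ∧ ψ z = 0 ∧ fderiv ℝ ψ z (1, 0) ≠ 0} with hZ
  have hloc : ∀ z ∈ Z, ∃ U ∈ 𝓝 z, dimH (Prod.fst '' (U ∩ Z)) ≤ dimH B := by
    rintro ⟨t0, c0⟩ ⟨_, h0, hd⟩
    set L : ℝ × Q →L[ℝ] ℝ := fderiv ℝ ψ (t0, c0) with hL
    set κ : ℝ := L (1, 0) with hκ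
    have hsplit : ∀ p : ℝ × Q, L p = p.1 * κ + L (0, p.2) := by
      intro p
      have h1 : p = p.1 • ((1 : ℝ), (0 : Q)) + (0, p.2) := by
        apply Prod.ext <;> simp
      conv_lhs => rw [h1]
      rw [map_add, map_smul, smul_eq_mul]
    set m : Q →L[ℝ] ℝ := L ∘L ContinuousLinearMap.inr ℝ ℝ Q with hm
    set e0 : (ℝ × Q) ≃L[ℝ] (ℝ × Q) := ContinuousLinearEquiv.equivOfInverse
      (L.prod (ContinuousLinearMap.snd ℝ ℝ Q))
      ((κ⁻¹ • (ContinuousLinearMap.fst ℝ ℝ Q - m ∘L ContinuousLinearMap.snd ℝ ℝ Q)).prod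
        (ContinuousLinearMap.snd ℝ ℝ Q))
      (by
        intro p
        apply Prod.ext
        · change κ⁻¹ * (L p - L (0, p.2)) = p.1
          rw [hsplit p]
          field_simp
          ring
        · rfl)
      (by
        intro p
        apply Prod.ext
        · change L (κ⁻¹ * (p.1 - L (0, p.2)), p.2) = p.1
          rw [hsplit]
          simp only
          field_simp
          ring
        · rfl) with he0
    set Φ : ℝ × Q → ℝ × Q := fun p => (ψ p, p.2) with hΦd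
    have hΦ : ContDiff ℝ ∞ Φ := hψ.prodMk contDiff_snd
    have hΦ' : HasFDerivAt Φ (e0 : ℝ × Q →L[ℝ] ℝ × Q) (t0, c0) := by
      have h1 : HasFDerivAt ψ L (t0, c0) := ((hψ.differentiable (by simp)) (t0, c0)).hasFDerivAt
      exact h1.prodMk hasFDerivAt_snd
    obtain ⟨e, hes, heΦ, hesymm, -⟩ := Sard.chart Φ hΦ (t0, c0) _ hΦ'
    refine ⟨e.source, e.open_source.mem_nhds hes, ?_⟩
    have h1 : Prod.fst '' (e.source ∩ Z) ⊆
        (fun c : Q => (e.symm (0, c)).1) '' (B ∩ {c | ((0 : ℝ), c) ∈ e.target}) := by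
      rintro _ ⟨⟨t, c⟩, ⟨hs, hcB, hψ0, _⟩, rfl⟩
      have h2 : e (t, c) = (0, c) := by
        rw [heΦ]
        simp only [hΦd, hψ0]
      refine ⟨c, ⟨hcB, ?_⟩, ?_⟩
      · have := e.map_source hs
        rw [h2] at this
        exact this
      · have := e.left_inv hs
        rw [h2] at this
        simp only
        rw [this]
    refine (dimH_mono h1).trans (le_trans ?_ (dimH_mono (inter_subset_left : B ∩
      {c | ((0 : ℝ), c) ∈ e.target} ⊆ B)))
    apply dimH_image_le_of_contDiffAt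
    rintro c ⟨_, hc⟩
    exact contDiff_fst.contDiffAt.comp c
      ((hesymm _ hc).comp c (contDiff_const.prodMk contDiff_id).contDiffAt)
  choose! U hU hUn using hloc
  obtain ⟨T, hTs, hTc, hcov⟩ := TopologicalSpace.countable_cover_nhdsWithin
    (s := Z) (f := U) (fun z hz => mem_nhdsWithin_of_mem_nhds (hU z hz))
  have hsub : {t : ℝ | ∃ c ∈ B, ψ (t, c) = 0 ∧ fderiv ℝ ψ (t, c) (1, 0) ≠ 0} ⊆
      ⋃ z ∈ T, Prod.fst '' (U z ∩ Z) := by
    rintro t ⟨c, hc, h1, h2⟩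
    have hmem : (t, c) ∈ Z := ⟨hc, h1, h2⟩
    obtain ⟨z, hz, hz2⟩ := mem_iUnion₂.1 (hcov hmem)
    exact mem_iUnion₂.2 ⟨z, hz, (t, c), ⟨hz2, hmem⟩, rfl⟩
  refine (dimH_mono hsub).trans ?_
  rw [dimH_bUnion hTc]
  exact iSup₂_le fun z hz => hUn z (hTs hz)

section point

variable {E Q : Type} [NormedAddCommGroup E] [NormedSpace ℝ E]
  [NormedAddCommGroup Q] [NormedSpace ℝ Q] [FiniteDimensional ℝ Q]

/-- A line meeting the union of the hypersurfaces with parameters in a small set in positive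
length has high contact with one of them at some point. -/
lemma famq_point (f : E × Q → ℝ) (hf : ContDiff ℝ ∞ f) (B : Set Q) (hB : dimH B < 1)
    (R : E × Q → Prop) (x v : E)
    (hT : volume {t : ℝ | ∃ c ∈ B, f (x + t • v, c) = 0 ∧ R (x + t • v, c)} ≠ 0) (N : ℕ) :
    ∃ t : ℝ, ∃ c ∈ B, f (x + t • v, c) = 0 ∧ R (x + t • v, c) ∧
      ∀ k, k ≤ N → HH f k ((x + t • v, c), (v, 0)) = 0 := by
  set ψ : ℕ → ℝ × Q → ℝ := fun k z => HH f k ((x + z.1 • v, z.2), (v, 0)) with hψ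
  have hψs : ∀ k, ContDiff ℝ ∞ (ψ k) := by
    intro k
    apply (HH_smooth f hf k).comp
    fun_prop
  have hψd : ∀ k t c, fderiv ℝ (ψ k) (t, c) (1, 0) = ψ (k + 1) (t, c) := by
    intro k t c
    have h1 := HH_line f hf k (x, c) (v, 0) t
    have h2 : (fun t : ℝ => HH f k ((x, c) + t • ((v, 0) : E × Q), (v, 0))) =
        fun t : ℝ => ψ k (t, c) := by
      funext t
      simp only [hψ]
      congr 1
      simp
    rw [h2] at h1
    have h3 : HasDerivAt (fun t : ℝ => ((t, c) : ℝ × Q)) (1, 0) t :=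
      (hasDerivAt_id t).prodMk (hasDerivAt_const _ _)
    have h4 := (((hψs k).differentiable (by simp)) (t, c)).hasFDerivAt.comp_hasDerivAt t h3
    have h5 := h4.unique h1
    rw [h5]
    simp only [hψ]
    congr 1
    simp
  by_contra hcon
  push Not at hcon
  apply hT
  have hsub : {t : ℝ | ∃ c ∈ B, f (x + t • v, c) = 0 ∧ R (x + t • v, c)} ⊆
      ⋃ k : ℕ, {t : ℝ | ∃ c ∈ B, ψ k (t, c) = 0 ∧ fderiv ℝ (ψ k) (t, c) (1, 0) ≠ 0} := by
    rintro t ⟨c, hcB, hf0, hR⟩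
    by_contra hno
    rw [mem_iUnion] at hno
    push Not at hno
    obtain ⟨k, hk, hne⟩ := hcon t c hcB hf0 hR
    apply hne
    have hall : ∀ k, ψ k (t, c) = 0 := by
      intro k
      induction k with
      | zero => exact hf0
      | succ k ih =>
        by_contra hne2
        apply hno k
        refine ⟨c, hcB, ih, ?_⟩
        rw [hψd]
        exact hne2
    exact hall k
  refine measure_mono_null hsub (measure_iUnion_null fun k => ?_)
  exact null_param (ψ k) (hψs k) B hB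

end point

section famq

variable {n : ℕ} {Q : Type} [NormedAddCommGroup Q] [NormedSpace ℝ Q] [FiniteDimensional ℝ Q]

/-- the family of functions for the case of several parameters -/
noncomputable def FQ (f : EuclideanSpace ℝ (Fin n) × Q → ℝ) (i j : Fin n) (N : ℕ) (k : Fin N) :
    (Rest i j × Q) × (ℝ × EuclideanSpace ℝ (Fin n)) → ℝ :=
  fun p => HH f k ((p.2.2, p.1.2), (vv i j (p.1.1, p.2.1), 0))

omit [FiniteDimensional ℝ Q] in
lemma FQ_smooth (f : EuclideanSpace ℝ (Fin n) × Q → ℝ) (hf : ContDiff ℝ ∞ f) (i j : Fin n)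
    (N : ℕ) (k : Fin N) : ContDiff ℝ ∞ (FQ f i j N k) := by
  unfold FQ
  apply (HH_smooth f hf k).comp
  apply ContDiff.prodMk
  · fun_prop
  · apply ContDiff.prodMk
    · apply (vv_contDiff i j).comp
      fun_prop
    · fun_prop

omit [FiniteDimensional ℝ Q] in
lemma FQ_fderiv (f : EuclideanSpace ℝ (Fin n) × Q → ℝ) (hf : ContDiff ℝ ∞ f) (i j : Fin n)
    (N : ℕ) (k : Fin N) (ξ : Rest i j) (c : Q) (l : ℝ) (x : EuclideanSpace ℝ (Fin n))
    (u : ℝ × EuclideanSpace ℝ (Fin n)) :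
    fderiv ℝ (fun z => FQ f i j N k ((ξ, c), z)) (l, x) u =
      fderiv ℝ (HH f k) ((x, c), (vv i j (ξ, l), 0)) ((u.2, 0), 0) +
        u.1 * fderiv ℝ (HH f k) ((x, c), (vv i j (ξ, l), 0)) (0, (eb j, 0)) := by
  have h0 : HasFDerivAt (fun z : ℝ × EuclideanSpace ℝ (Fin n) => vv i j (ξ, z.1))
      (((ContinuousLinearMap.id ℝ ℝ).smulRight (eb j)) ∘L
          (ContinuousLinearMap.fst ℝ ℝ (EuclideanSpace ℝ (Fin n)))) (l, x) :=
    HasFDerivAt.comp (g := fun z : ℝ => vv i j (ξ, z))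
      (f := fun z : ℝ × EuclideanSpace ℝ (Fin n) => z.1) (l, x) (vv_hasFDerivAt i j ξ l)
      hasFDerivAt_fst
  have h1 : HasFDerivAt (fun z : ℝ × EuclideanSpace ℝ (Fin n) =>
      (((z.2, c), (vv i j (ξ, z.1), (0 : Q))) : (EuclideanSpace ℝ (Fin n) × Q) ×
        (EuclideanSpace ℝ (Fin n) × Q)))
      (((ContinuousLinearMap.snd ℝ ℝ (EuclideanSpace ℝ (Fin n))).prod 0).prod
        ((((ContinuousLinearMap.id ℝ ℝ).smulRight (eb j)) ∘L
          (ContinuousLinearMap.fst ℝ ℝ (EuclideanSpace ℝ (Fin n)))).prod 0)) (l, x) :=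
    (hasFDerivAt_snd.prodMk (hasFDerivAt_const c _)).prodMk
      (h0.prodMk (hasFDerivAt_const (0 : Q) _))
  have h2 := ((HH_smooth f hf k).differentiable (by simp)) ((x, c), (vv i j (ξ, l), 0))
  have h3 : HasFDerivAt (fun z => FQ f i j N k ((ξ, c), z)) _ (l, x) :=
    HasFDerivAt.comp (g := HH f k) (l, x) h2.hasFDerivAt h1
  rw [h3.fderiv]
  change fderiv ℝ (HH f k) ((x, c), (vv i j (ξ, l), 0)) ((u.2, 0), (u.1 • eb j, 0)) = _
  have h5 : (((u.2, (0 : Q)), (u.1 • eb j, (0 : Q))) : (EuclideanSpace ℝ (Fin n) × Q) ×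
        (EuclideanSpace ℝ (Fin n) × Q)) = ((u.2, 0), 0) + u.1 • (0, (eb j, 0)) := by
    simp
  rw [h5, map_add, map_smul, smul_eq_mul]

omit [FiniteDimensional ℝ Q] in
lemma famq_config (f : EuclideanSpace ℝ (Fin n) × Q → ℝ) (hf : ContDiff ℝ ∞ f)
    (x v : EuclideanSpace ℝ (Fin n)) (c : Q) (i : Fin n) (hv : v i = 1) (N : ℕ)
    (hN : finrank ℝ (EuclideanSpace ℝ (Fin n) →L[ℝ] ℝ) < N)
    (h0 : fderiv ℝ (fun y => f (y, c)) x ≠ 0)
    (hH : ∀ k, k ≤ N → HH f k ((x, c), (v, 0)) = 0) :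
    ∃ j, j ≠ i ∧ ∃ a : Fin N → ℝ,
      (∀ k : Fin N, FQ f i j N k (((fun m => v m), c), (v j, x)) = 0) ∧
      ∑ k, a k • fderiv ℝ (fun z => FQ f i j N k (((fun m => v m), c), z)) (v j, x) =
        ContinuousLinearMap.fst ℝ ℝ (EuclideanSpace ℝ (Fin n)) := by
  set P : ℕ → (EuclideanSpace ℝ (Fin n) →L[ℝ] ℝ) := fun k =>
    fderiv ℝ (HH f k) ((x, c), (v, 0)) ∘L ContinuousLinearMap.inl ℝ _ _ ∘L
      ContinuousLinearMap.inl ℝ _ _ with hP
  have hPa : ∀ k η, P k η = fderiv ℝ (HH f k) ((x, c), (v, 0)) ((η, 0), 0) := fun k η => rfl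
  have hP0 : P 0 ≠ 0 := by
    intro h
    apply h0
    apply ContinuousLinearMap.ext
    intro η
    have h1 := congrArg (fun T : EuclideanSpace ℝ (Fin n) →L[ℝ] ℝ => T η) h
    simp only [hPa] at h1
    rw [HH_horiz_zero f hf] at h1
    have h2 : HasFDerivAt (fun y : EuclideanSpace ℝ (Fin n) => (y, c))
        (ContinuousLinearMap.inl ℝ _ Q) x := hasFDerivAt_prodMk_left x c
    have h3 := ((hf.differentiable (by simp)) (x, c)).hasFDerivAt
    have h4 : fderiv ℝ (fun y => f (y, c)) x =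
      fderiv ℝ f (x, c) ∘L ContinuousLinearMap.inl ℝ _ Q := (HasFDerivAt.comp x h3 h2).fderiv
    rw [h4]
    exact h1
  obtain ⟨a, ha1, ha2⟩ := exists_jet_combination N hN P hP0
  set w : EuclideanSpace ℝ (Fin n) →L[ℝ] ℝ :=
    ∑ k ∈ Finset.range N, ((k : ℝ) * a k) • P (k - 1) with hw
  have hwa : ∀ η, w η = ∑ k ∈ Finset.range N, ((k : ℝ) * a k) * P (k - 1) η := by
    intro η
    rw [hw, sum_apply]
    rfl
  have hwv : w v = 0 := by
    rw [hwa]
    apply Finset.sum_eq_zero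
    intro k hk
    rw [Finset.mem_range] at hk
    rcases Nat.eq_zero_or_pos k with h | h
    · rw [h]; simp
    · obtain ⟨k', rfl⟩ := Nat.exists_eq_succ_of_ne_zero (by omega : k ≠ 0)
      have h3 : P (k'.succ - 1) v = HH f (k' + 1) ((x, c), (v, 0)) := rfl
      rw [h3, hH (k' + 1) (by omega), mul_zero]
  obtain ⟨j, hji, hwj⟩ := exists_coord i v hv w ha2 hwv
  refine ⟨j, hji, fun k => (w (eb j))⁻¹ * a k, ?_, ?_⟩
  · intro k
    have hvv : vv i j ((fun m => v m), v j) = v := (decomp i j hji v hv).symm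
    simp only [FQ, hvv]
    exact hH k (by omega)
  · apply ContinuousLinearMap.ext
    intro u
    have hvv : vv i j ((fun m => v m), v j) = v := (decomp i j hji v hv).symm
    have h4 : ∀ k : Fin N, fderiv ℝ (fun z => FQ f i j N k (((fun m => v m), c), z)) (v j, x) u =
        P k u.2 + u.1 * ((k : ℝ) * P (k - 1) (eb j)) := by
      intro k
      rw [FQ_fderiv f hf, hvv]
      congr 2
      rcases Nat.eq_zero_or_pos (k : ℕ) with h | h
      · rw [h, HH_vert_zero f hf]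
        simp
      · obtain ⟨k', hk'⟩ := Nat.exists_eq_succ_of_ne_zero (by omega : (k : ℕ) ≠ 0)
        rw [hk', HH_vert f hf]
        push_cast
        rfl
    rw [sum_apply]
    have h5 : ∀ k : Fin N, (((w (eb j))⁻¹ * a k) •
        fderiv ℝ (fun z => FQ f i j N k (((fun m => v m), c), z)) (v j, x)) u =
        (w (eb j))⁻¹ * ((a k • P k) u.2) +
          (w (eb j))⁻¹ * u.1 * (((k : ℝ) * a k) * P (k - 1) (eb j)) := by
      intro k
      rw [smul_apply, smul_apply, smul_eq_mul, smul_eq_mul, h4 k]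
      ring
    rw [Finset.sum_congr rfl (fun k _ => h5 k), Finset.sum_add_distrib, ← Finset.mul_sum,
      ← Finset.mul_sum]
    have h6 : ∑ k : Fin N, (a k • P k) u.2 = 0 := by
      rw [← Finset.sum_range (fun k => (a k • P k) u.2), ← sum_apply, ha1]
      rfl
    have h7 : ∑ k : Fin N, (((k : ℕ) : ℝ) * a k) * P ((k : ℕ) - 1) (eb j) = w (eb j) := by
      rw [hwa, Finset.sum_range]
    rw [h6, h7]
    simp only [mul_zero, zero_add, ContinuousLinearMap.coe_fst']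
    field_simp

/-- Directions of the lines meeting a union of hypersurfaces with parameters in a small set in
positive length. -/
lemma famq_dim (f : EuclideanSpace ℝ (Fin n) × Q → ℝ) (hf : ContDiff ℝ ∞ f) (B : Set Q)
    (hB : dimH B < 1) (i : Fin n) :
    dimH {v : EuclideanSpace ℝ (Fin n) | v i = 1 ∧
      ∃ x, volume {t : ℝ | ∃ c ∈ B, f (x + t • v, c) = 0 ∧
        fderiv ℝ (fun y => f (y, c)) (x + t • v) ≠ 0} ≠ 0} ≤
      ((n - 2 : ℕ) : ℝ≥0∞) + dimH B := by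
  set N := finrank ℝ (EuclideanSpace ℝ (Fin n) →L[ℝ] ℝ) + 1 with hN
  set D : Fin n → Set (EuclideanSpace ℝ (Fin n)) := fun j => {v | ∃ q : (Rest i j × Q) × ℝ,
    (q.1.2 ∈ B ∧ ∃ (y : EuclideanSpace ℝ (Fin n)) (a : Fin N → ℝ),
      (∀ k, FQ f i j N k (q.1, (q.2, y)) = 0) ∧
      ∑ k, a k • fderiv ℝ (fun z => FQ f i j N k (q.1, z)) (q.2, y) =
        ContinuousLinearMap.fst ℝ ℝ (EuclideanSpace ℝ (Fin n))) ∧
    v = vv i j (q.1.1, q.2)} with hD
  have hDdim : ∀ j, j ≠ i → dimH (D j) ≤ ((n - 2 : ℕ) : ℝ≥0∞) + dimH B := by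
    intro j hj
    have h1 := mult_dim B N (FQ f i j N) (FQ_smooth f hf i j N)
    rw [finrank_rest i j hj] at h1
    obtain ⟨L, hL⟩ := vv_lip i j
    have hpr := (LipschitzWith.prod_fst (α := Rest i j) (β := Q)).comp
      (LipschitzWith.prod_fst (α := Rest i j × Q) (β := ℝ))
    have hpr2 := hpr.prodMk (LipschitzWith.prod_snd (α := Rest i j × Q) (β := ℝ))
    have hall := hL.comp hpr2
    refine le_trans (dimH_mono ?_) ((hall.dimH_image_le _).trans h1)
    rintro v ⟨q, hq, hv⟩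
    exact ⟨q, hq, hv.symm⟩
  have hsub : {v : EuclideanSpace ℝ (Fin n) | v i = 1 ∧
      ∃ x, volume {t : ℝ | ∃ c ∈ B, f (x + t • v, c) = 0 ∧
        fderiv ℝ (fun y => f (y, c)) (x + t • v) ≠ 0} ≠ 0} ⊆
      ⋃ j : {j : Fin n // j ≠ i}, D j := by
    rintro v ⟨hvi, x, hT⟩
    obtain ⟨t, c, hcB, _, hR, hH⟩ := famq_point f hf B hB
      (fun p => fderiv ℝ (fun y => f (y, p.2)) p.1 ≠ 0) x v hT N
    obtain ⟨j, hji, a, h1, h2⟩ := famq_config f hf (x + t • v) v c i hvi N (Nat.lt_succ_self _)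
      hR hH
    exact mem_iUnion.2 ⟨⟨j, hji⟩, (((fun m => v m), c), v j),
      ⟨hcB, x + t • v, a, h1, h2⟩, (decomp i j hji v hvi)⟩
  refine (dimH_mono hsub).trans ?_
  rw [dimH_iUnion]
  apply iSup_le
  rintro ⟨j, hj⟩
  exact hDdim j hj

end famq

end Pool.Agent.Helper1.KakSmooth
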