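import Mathlib
import Pool.Agent.Helper1.KakSmooth.Family
import Pool.Agent.Helper1.KakSmooth.Config

set_option autoImplicit false

open Set MeasureTheory Filter Topology Module
open scoped ContDiff NNReal ENNReal

namespace Pool.Agent.Helper1.KakSmooth

section free

variable {n : ℕ}

/-- parameters of the free configurations: `(x, τ, c)` -/
abbrev ParF (n N : ℕ) : Type := EuclideanSpace ℝ (Fin n) × ((Fin N → ℝ) × (Fin N → ℝ))

/-- the family of functions for the free case -/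
noncomputable def GG (f : EuclideanSpace ℝ (Fin n) × ℝ → ℝ) (i j : Fin n) (N : ℕ) (k : Fin N) :
    (Rest i j × ℝ) × (ℝ × ParF n N) → ℝ :=
  fun p => f (p.2.2.1 + p.2.2.2.1 k • vv i j (p.1.1, p.2.1), p.2.2.2.2 k)

lemma GG_smooth (f : EuclideanSpace ℝ (Fin n) × ℝ → ℝ) (hf : ContDiff ℝ ∞ f) (i j : Fin n)
    (N : ℕ) (k : Fin N) : ContDiff ℝ ∞ (GG f i j N k) := by
  unfold GG
  apply hf.comp
  have hv : ContDiff ℝ ∞ (fun p : (Rest i j × ℝ) × (ℝ × ParF n N) => vv i j (p.1.1, p.2.1)) := by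
    apply (vv_contDiff i j).comp
    fun_prop
  fun_prop

lemma GG_fderiv (f : EuclideanSpace ℝ (Fin n) × ℝ → ℝ) (hf : ContDiff ℝ ∞ f) (i j : Fin n)
    (N : ℕ) (k : Fin N) (ξ : Rest i j) (c0 l : ℝ) (x : EuclideanSpace ℝ (Fin n))
    (τ c : Fin N → ℝ) (u : ℝ × ParF n N) :
    fderiv ℝ (fun z => GG f i j N k ((ξ, c0), z)) (l, (x, (τ, c))) u =
      fderiv ℝ f (x + τ k • vv i j (ξ, l), c k) (u.2.1, 0) +
      u.2.2.1 k * fderiv ℝ f (x + τ k • vv i j (ξ, l), c k) (vv i j (ξ, l), 0) +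
      τ k * u.1 * fderiv ℝ f (x + τ k • vv i j (ξ, l), c k) (eb j, 0) +
      u.2.2.2 k * fderiv ℝ f (x + τ k • vv i j (ξ, l), c k) (0, 1) := by
  set z0 : ℝ × ParF n N := (l, (x, (τ, c))) with hz0
  set pl : ℝ × ParF n N →L[ℝ] ℝ := ContinuousLinearMap.fst ℝ _ _ with hpl
  set px : ℝ × ParF n N →L[ℝ] EuclideanSpace ℝ (Fin n) :=
    (ContinuousLinearMap.fst ℝ _ _) ∘L (ContinuousLinearMap.snd ℝ _ _) with hpx
  set pt : ℝ × ParF n N →L[ℝ] ℝ :=
    (ContinuousLinearMap.proj k) ∘L (ContinuousLinearMap.fst ℝ _ _) ∘L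
      (ContinuousLinearMap.snd ℝ _ _) ∘L (ContinuousLinearMap.snd ℝ _ _) with hpt
  set pc : ℝ × ParF n N →L[ℝ] ℝ :=
    (ContinuousLinearMap.proj k) ∘L (ContinuousLinearMap.snd ℝ _ _) ∘L
      (ContinuousLinearMap.snd ℝ _ _) ∘L (ContinuousLinearMap.snd ℝ _ _) with hpc
  have h1 : HasFDerivAt (fun z : ℝ × ParF n N => vv i j (ξ, pl z))
      (((ContinuousLinearMap.id ℝ ℝ).smulRight (eb j)) ∘L pl) z0 :=
    HasFDerivAt.comp (g := fun z : ℝ => vv i j (ξ, z)) (f := pl) z0 (vv_hasFDerivAt i j ξ l)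
      (pl.hasFDerivAt (x := z0))
  have h2 : HasFDerivAt (fun z : ℝ × ParF n N => px z + pt z • vv i j (ξ, pl z))
      (px + (τ k • (((ContinuousLinearMap.id ℝ ℝ).smulRight (eb j)) ∘L pl) +
        pt.smulRight (vv i j (ξ, l)))) z0 :=
    (px.hasFDerivAt (x := z0)).add ((pt.hasFDerivAt (x := z0)).smul h1)
  have h3 := h2.prodMk (pc.hasFDerivAt (x := z0))
  have h4 : HasFDerivAt f (fderiv ℝ f (x + τ k • vv i j (ξ, l), c k))
      (x + τ k • vv i j (ξ, l), c k) := ((hf.differentiable (by simp)) _).hasFDerivAt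
  have h5 : HasFDerivAt (fun z => GG f i j N k ((ξ, c0), z)) _ z0 :=
    HasFDerivAt.comp (g := f) z0 h4 h3
  rw [h5.fderiv]
  change fderiv ℝ f (x + τ k • vv i j (ξ, l), c k)
    (u.2.1 + (τ k • (u.1 • eb j) + u.2.2.1 k • vv i j (ξ, l)), u.2.2.2 k) = _
  have h6 : ((u.2.1 + (τ k • (u.1 • eb j) + u.2.2.1 k • vv i j (ξ, l)), u.2.2.2 k) :
      EuclideanSpace ℝ (Fin n) × ℝ) =
      (u.2.1, 0) + u.2.2.1 k • (vv i j (ξ, l), 0) + (τ k * u.1) • (eb j, 0) +
        u.2.2.2 k • (0, 1) := by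
    apply Prod.ext
    · simp [smul_smul]
      abel
    · simp
  rw [h6]
  simp only [map_add, map_smul, smul_eq_mul]

/-- Directions of lines with infinitely many free contact points. -/
lemma free_dim (f : EuclideanSpace ℝ (Fin n) × ℝ → ℝ) (hf : ContDiff ℝ ∞ f) (i : Fin n) :
    dimH {v : EuclideanSpace ℝ (Fin n) | v i = 1 ∧ ∃ x,
      {t : ℝ | ∃ c, f (x + t • v, c) = 0 ∧ fderiv ℝ (fun y => f (y, c)) (x + t • v) ≠ 0 ∧
        fderiv ℝ f (x + t • v, c) (v, 0) = 0 ∧ fderiv ℝ f (x + t • v, c) (0, 1) = 0}.Infinite} ≤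
      ((n - 2 : ℕ) : ℝ≥0∞) := by
  set N := finrank ℝ (EuclideanSpace ℝ (Fin n) →L[ℝ] ℝ) + 1 with hN
  set B : Fin n → Set (EuclideanSpace ℝ (Fin n)) := fun j => {v | ∃ q : (Rest i j × ℝ) × ℝ,
    (q.1.2 ∈ ({0} : Set ℝ) ∧ ∃ (y : ParF n N) (a : Fin N → ℝ),
      (∀ k, GG f i j N k (q.1, (q.2, y)) = 0) ∧
      ∑ k, a k • fderiv ℝ (fun z => GG f i j N k (q.1, z)) (q.2, y) =
        ContinuousLinearMap.fst ℝ ℝ (ParF n N)) ∧
    v = vv i j (q.1.1, q.2)} with hB
  have hBdim : ∀ j, j ≠ i → dimH (B j) ≤ ((n - 2 : ℕ) : ℝ≥0∞) := by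
    intro j hj
    have h1 := mult_dim ({0} : Set ℝ) N (GG f i j N) (GG_smooth f hf i j N)
    rw [finrank_rest i j hj, dimH_singleton, add_zero] at h1
    refine le_trans (dim_transfer i j _ (B j) ?_) h1
    rintro v ⟨q, hq, hv⟩
    exact ⟨q, hq, hv⟩
  have hsub : {v : EuclideanSpace ℝ (Fin n) | v i = 1 ∧ ∃ x,
      {t : ℝ | ∃ c, f (x + t • v, c) = 0 ∧ fderiv ℝ (fun y => f (y, c)) (x + t • v) ≠ 0 ∧
        fderiv ℝ f (x + t • v, c) (v, 0) = 0 ∧ fderiv ℝ f (x + t • v, c) (0, 1) = 0}.Infinite} ⊆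
      ⋃ j : {j : Fin n // j ≠ i}, B j := by
    rintro v ⟨hvi, x, hinf⟩
    set em := hinf.natEmbedding _ with hem
    set τ : Fin N → ℝ := fun k => ((em k : _) : ℝ) with hτ
    have hτinj : Function.Injective τ := by
      intro a b hab
      have := em.injective (Subtype.ext hab)
      exact Fin.ext this
    have hex : ∀ k : Fin N, ∃ c, f (x + τ k • v, c) = 0 ∧
        fderiv ℝ (fun y => f (y, c)) (x + τ k • v) ≠ 0 ∧
        fderiv ℝ f (x + τ k • v, c) (v, 0) = 0 ∧ fderiv ℝ f (x + τ k • v, c) (0, 1) = 0 :=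
      fun k => (em k).2
    choose c hc1 hc2 hc3 hc4 using hex
    set p : Fin N → (EuclideanSpace ℝ (Fin n) →L[ℝ] ℝ) := fun k =>
      fderiv ℝ f (x + τ k • v, c k) ∘L ContinuousLinearMap.inl ℝ _ ℝ with hp
    have hpne : ∀ k, p k ≠ 0 := by
      intro k
      simp only [hp]
      rw [← part_x f hf]
      exact hc2 k
    have hpa : ∀ k η, p k η = fderiv ℝ f (x + τ k • v, c k) (η, 0) := fun k η => rfl
    obtain ⟨a, ha1, ha2⟩ := exists_combination N (Nat.lt_succ_self _) τ hτinj p hpne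
    set Q : EuclideanSpace ℝ (Fin n) →L[ℝ] ℝ := ∑ k, τ k • (a k • p k) with hQ
    have hQa : ∀ η, Q η = ∑ k, τ k * (a k * p k η) := by
      intro η
      rw [hQ, sum_apply]
      rfl
    have hQv : Q v = 0 := by
      rw [hQa]
      apply Finset.sum_eq_zero
      intro k _
      rw [hpa, hc3 k, mul_zero, mul_zero]
    obtain ⟨j, hji, hQj⟩ := exists_coord i v hvi Q ha2 hQv
    have hvv : vv i j ((fun m => v m), v j) = v := (decomp i j hji v hvi).symm
    refine mem_iUnion.2 ⟨⟨j, hji⟩, (((fun m => v m), 0), v j),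
      ⟨rfl, (x, (τ, c)), fun k => (Q (eb j))⁻¹ * a k, ?_, ?_⟩, hvv.symm⟩
    · intro k
      change f (x + τ k • vv i j ((fun m => v m), v j), c k) = 0
      rw [hvv]
      exact hc1 k
    · apply ContinuousLinearMap.ext
      intro u
      have h4 : ∀ k : Fin N, fderiv ℝ (fun z => GG f i j N k (((fun m => v m), 0), z))
          (v j, (x, (τ, c))) u = p k u.2.1 + u.1 * (τ k * p k (eb j)) := by
        intro k
        rw [GG_fderiv f hf, hvv, hc3 k, hc4 k, hpa, hpa]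
        ring
      rw [sum_apply]
      have h5 : ∀ k : Fin N, (((Q (eb j))⁻¹ * a k) •
          fderiv ℝ (fun z => GG f i j N k (((fun m => v m), 0), z)) (v j, (x, (τ, c)))) u =
          (Q (eb j))⁻¹ * ((a k • p k) u.2.1) +
            (Q (eb j))⁻¹ * u.1 * (τ k * (a k * p k (eb j))) := by
        intro k
        rw [smul_apply, smul_apply, smul_eq_mul, smul_eq_mul, h4 k]
        ring
      rw [Finset.sum_congr rfl (fun k _ => h5 k), Finset.sum_add_distrib, ← Finset.mul_sum,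
        ← Finset.mul_sum]
      have h6 : ∑ k : Fin N, (a k • p k) u.2.1 = 0 := by
        rw [← sum_apply, ha1]
        rfl
      rw [h6, ← hQa]
      simp only [mul_zero, zero_add, ContinuousLinearMap.coe_fst']
      field_simp
  refine (dimH_mono hsub).trans ?_
  rw [dimH_iUnion]
  apply iSup_le
  rintro ⟨j, hj⟩
  exact hBdim j hj

end free

end Pool.Agent.Helper1.KakSmooth
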