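import Mathlib
import Pool.Agent.Helper1.KakSmooth.Free
import Pool.Agent.Helper1.Sard.MorseSard

set_option autoImplicit false

open Set MeasureTheory Filter Topology Module
open scoped ContDiff NNReal ENNReal

namespace Pool.Agent.Helper1.KakSmooth

lemma null_b1 {E : Type} [NormedAddCommGroup E] [NormedSpace ℝ E]
    (f : E × ℝ → ℝ) (hf : ContDiff ℝ ∞ f) (x v : E) :
    volume {t : ℝ | ∃ c, f (x + t • v, c) = 0 ∧ fderiv ℝ f (x + t • v, c) (v, 0) ≠ 0 ∧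
      fderiv ℝ f (x + t • v, c) (0, 1) = 0} = 0 := by
  set φ : ℝ × ℝ → ℝ := fun p => f (x + p.1 • v, p.2) with hφ
  have hφs : ContDiff ℝ ∞ φ := by
    apply hf.comp
    fun_prop
  have hφd : ∀ p u : ℝ × ℝ, fderiv ℝ φ p u = u.1 * fderiv ℝ f (x + p.1 • v, p.2) (v, 0) +
      u.2 * fderiv ℝ f (x + p.1 • v, p.2) (0, 1) := by
    intro p u
    have h1 : HasFDerivAt (fun p : ℝ × ℝ => ((x + p.1 • v, p.2) : E × ℝ))
        (((ContinuousLinearMap.fst ℝ ℝ ℝ).smulRight v).prod (ContinuousLinearMap.snd ℝ ℝ ℝ)) p :=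
      ((hasFDerivAt_fst.smul_const v).const_add x).prodMk hasFDerivAt_snd
    have h2 : HasFDerivAt φ _ p :=
      HasFDerivAt.comp (g := f) p ((hf.differentiable (by simp)) (x + p.1 • v, p.2)).hasFDerivAt h1
    rw [h2.fderiv]
    change fderiv ℝ f (x + p.1 • v, p.2) (u.1 • v, u.2) = _
    have h3 : ((u.1 • v, u.2) : E × ℝ) = u.1 • (v, 0) + u.2 • (0, 1) := by
      apply Prod.ext <;> simp
    rw [h3, map_add, map_smul, map_smul, smul_eq_mul, smul_eq_mul]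
  set g : (ℝ × ℝ) × ℝ → ℝ := fun p => p.1.1 - p.2 * φ p.1 with hg
  have hgs : ContDiff ℝ ∞ g := by
    apply ContDiff.sub
    · fun_prop
    · apply ContDiff.mul
      · fun_prop
      · exact hφs.comp contDiff_fst
  refine measure_mono_null ?_ (Sard.morse_sard g hgs)
  rintro t ⟨c, h1, h2, h3⟩
  set φt : ℝ := fderiv ℝ f (x + t • v, c) (v, 0) with hφt
  refine ⟨((t, c), φt⁻¹), ?_, ?_⟩
  · rw [Set.mem_ofPred_eq]
    have hd1 : HasFDerivAt (fun p : (ℝ × ℝ) × ℝ => φ p.1)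
        (fderiv ℝ φ (t, c) ∘L ContinuousLinearMap.fst ℝ (ℝ × ℝ) ℝ) ((t, c), φt⁻¹) :=
      HasFDerivAt.comp (g := φ) ((t, c), φt⁻¹) ((hφs.differentiable (by simp)) (t, c)).hasFDerivAt
        hasFDerivAt_fst
    have hd2 : HasFDerivAt (fun p : (ℝ × ℝ) × ℝ => p.2 * φ p.1) _ ((t, c), φt⁻¹) :=
      hasFDerivAt_snd.mul hd1
    have hd3 : HasFDerivAt (fun p : (ℝ × ℝ) × ℝ => p.1.1)
        (ContinuousLinearMap.fst ℝ ℝ ℝ ∘L ContinuousLinearMap.fst ℝ (ℝ × ℝ) ℝ)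
        ((t, c), φt⁻¹) := (ContinuousLinearMap.fst ℝ ℝ ℝ ∘L
          ContinuousLinearMap.fst ℝ (ℝ × ℝ) ℝ).hasFDerivAt
    have hd4 : HasFDerivAt g _ ((t, c), φt⁻¹) := hd3.sub hd2
    rw [hd4.fderiv]
    apply ContinuousLinearMap.ext
    intro u
    have hφ0 : φ (t, c) = 0 := h1
    have h4 := hφd (t, c) u.1
    simp only at h4
    rw [h3, ← hφt, mul_zero, add_zero] at h4
    change u.1.1 - (φt⁻¹ * fderiv ℝ φ (t, c) u.1 + φ (t, c) * u.2) = 0
    rw [h4, hφ0]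
    field_simp
    ring
  · change t - φt⁻¹ * φ (t, c) = t
    have hφ0 : φ (t, c) = 0 := h1
    rw [hφ0]
    ring

section sphere

variable {n : ℕ}

/-- From affine charts to the sphere. -/
lemma sphere_transfer (β : ℝ≥0∞) (D : Fin n → Set (EuclideanSpace ℝ (Fin n)))
    (hD1 : ∀ i, ∀ v ∈ D i, v i = 1) (hD2 : ∀ i, dimH (D i) ≤ β)
    (Om : Set (EuclideanSpace ℝ (Fin n)))
    (hOm : ∀ d ∈ Om, ‖d‖ = 1 ∧ ∀ i, d i ≠ 0 → (d i)⁻¹ • d ∈ D i) : dimH Om ≤ β := by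
  set f : ℝ → EuclideanSpace ℝ (Fin n) → EuclideanSpace ℝ (Fin n) :=
    fun ε v => ε • (‖v‖⁻¹ • v) with hf
  have hfdim : ∀ ε i, dimH (f ε '' D i) ≤ β := by
    intro ε i
    refine le_trans ?_ (hD2 i)
    apply dimH_image_le_of_contDiffAt
    intro v hv
    have hv0 : v ≠ 0 := by
      rintro rfl
      have := hD1 i _ hv
      simp at this
    apply ContDiffAt.const_smul
    exact ((contDiffAt_norm ℝ hv0).inv (norm_ne_zero_iff.2 hv0)).smul contDiffAt_fun_id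
  have hsub : Om ⊆ ⋃ i : Fin n, (f 1 '' D i ∪ f (-1) '' D i) := by
    intro d hdO
    obtain ⟨hd, hdi⟩ := hOm d hdO
    obtain ⟨i, hi⟩ : ∃ i, d i ≠ 0 := by
      by_contra hcon
      push Not at hcon
      have : d = 0 := by
        ext i
        simpa using hcon i
      rw [this, norm_zero] at hd
      exact zero_ne_one hd
    have hDv := hdi i hi
    have hnorm : ‖(d i)⁻¹ • d‖⁻¹ = |d i| := by
      rw [norm_smul, hd, mul_one, norm_inv, Real.norm_eq_abs, inv_inv]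
    refine mem_iUnion.2 ⟨i, ?_⟩
    rcases lt_or_gt_of_ne hi with hneg | hpos
    · right
      refine ⟨_, hDv, ?_⟩
      simp only [hf]
      rw [hnorm, abs_of_neg hneg, smul_smul, smul_smul]
      have : -1 * -d i * (d i)⁻¹ = 1 := by
        rw [neg_one_mul, neg_neg, mul_inv_cancel₀ hi]
      rw [this, one_smul]
    · left
      refine ⟨_, hDv, ?_⟩
      simp only [hf]
      rw [hnorm, abs_of_pos hpos, smul_smul, smul_smul, one_mul, mul_inv_cancel₀ hi, one_smul]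
  refine (dimH_mono hsub).trans ?_
  rw [dimH_iUnion]
  apply iSup_le
  intro i
  rw [dimH_union]
  exact max_le (hfdim 1 i) (hfdim (-1) i)

/-- The dimension of the unit sphere (upper bound). -/
lemma sphere_dim (hn : 2 ≤ n) (Om : Set (EuclideanSpace ℝ (Fin n))) (hOm : ∀ d ∈ Om, ‖d‖ = 1) :
    dimH Om ≤ ((n - 1 : ℕ) : ℝ≥0∞) := by
  apply sphere_transfer _ (fun i => {v | v i = 1}) (fun i v hv => hv) _ Om
  · intro d hd
    refine ⟨hOm d hd, ?_⟩
    intro i hi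
    rw [Set.mem_ofPred_eq, PiLp.smul_apply, smul_eq_mul, inv_mul_cancel₀ hi]
  · intro i
    obtain ⟨j, hj⟩ : ∃ j : Fin n, j ≠ i := by
      have : Nontrivial (Fin n) := Fin.nontrivial_iff_two_le.2 hn
      exact exists_ne i
    obtain ⟨L, hL⟩ := vv_lip i j
    have h1 : {v : EuclideanSpace ℝ (Fin n) | v i = 1} ⊆ vv i j '' univ := by
      intro v hv
      exact ⟨((fun m => v m), v j), mem_univ _, (decomp i j hj v hv).symm⟩
    refine (dimH_mono h1).trans ((hL.dimH_image_le _).trans ?_)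
    rw [Real.dimH_univ_eq_finrank, Module.finrank_prod, finrank_rest i j hj, Module.finrank_self]
    apply le_of_eq
    congr 1
    omega

end sphere

section main

variable {n : ℕ}

/-- the part of the family `f` over the parameters in `A` -/
def fam (f : EuclideanSpace ℝ (Fin n) × ℝ → ℝ) (A : Set ℝ) : Set (EuclideanSpace ℝ (Fin n)) :=
  {y | ∃ c ∈ A, f (y, c) = 0 ∧ fderiv ℝ (fun y => f (y, c)) y ≠ 0}

/-- a nonempty family has dimension at least `n - 1` -/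
lemma fam_lower (f : EuclideanSpace ℝ (Fin n) × ℝ → ℝ) (hf : ContDiff ℝ ∞ f) (A : Set ℝ)
    (hne : (fam f A).Nonempty) : ((n - 1 : ℕ) : ℝ≥0∞) ≤ dimH (fam f A) := by
  obtain ⟨x0, c0, hc0, h0, hx⟩ := hne
  set γ : EuclideanSpace ℝ (Fin n) → ℝ := fun y => f (y, c0) with hγ
  have hγs : ContDiff ℝ ∞ γ := hf.comp (contDiff_id.prodMk contDiff_const)
  have hV : {y | fderiv ℝ γ y ≠ 0} ∈ 𝓝 x0 :=
    (hγs.continuous_fderiv (by simp)).continuousAt.preimage_mem_nhds (isOpen_ne.mem_nhds hx)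
  obtain ⟨J, hJ, hlow⟩ := sat_lower γ hγs x0 hx _ hV
  have h1 := hlow {γ x0} (singleton_subset_iff.2 (mem_of_mem_nhds hJ)) (singleton_nonempty _)
  rw [dimH_singleton, add_zero, finrank_euclideanSpace, Fintype.card_fin] at h1
  refine h1.trans (dimH_mono ?_)
  rintro y ⟨hy1, hy2⟩
  refine ⟨c0, hc0, ?_, hy1⟩
  have h3 : γ y = γ x0 := hy2
  have h4 : γ x0 = 0 := h0
  rw [h4] at h3
  exact h3

/-- The dimension of the directions in the affine chart, for one family. -/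
lemma chart_family_dim (f : EuclideanSpace ℝ (Fin n) × ℝ → ℝ) (hf : ContDiff ℝ ∞ f) (A : Set ℝ)
    (K : Set (EuclideanSpace ℝ (Fin n))) (hK : fam f A ⊆ K) (hn : 2 ≤ n)
    (hKn : dimH K < n) (hK1 : ((n - 1 : ℕ) : ℝ≥0∞) ≤ dimH K) (i : Fin n) :
    dimH {v : EuclideanSpace ℝ (Fin n) | v i = 1 ∧
      ∃ x, volume {t : ℝ | x + t • v ∈ fam f A} ≠ 0} ≤ dimH K - 1 := by
  -- the points where the parameter is a function of the position
  set Z : Set (EuclideanSpace ℝ (Fin n) × ℝ) := {z | z.2 ∈ A ∧ f z = 0 ∧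
    fderiv ℝ (fun y => f (y, z.2)) z.1 ≠ 0 ∧ fderiv ℝ f z (0, 1) ≠ 0} with hZ
  have hloc : ∀ z ∈ Z, ∃ V ∈ 𝓝 z.1, ∃ J ∈ 𝓝 z.2, ∃ γ : EuclideanSpace ℝ (Fin n) → ℝ,
      ContDiff ℝ ∞ γ ∧
      (∀ y ∈ V, ∀ c ∈ J, f (y, c) = 0 → c = γ y) ∧ (∀ y ∈ V, fderiv ℝ γ y ≠ 0) ∧
      ∀ B ⊆ J, B.Nonempty → ((n - 1 : ℕ) : ℝ≥0∞) + dimH B ≤ dimH (fam f B) := by
    rintro ⟨x0, c0⟩ ⟨_, h0, hx, hc⟩
    obtain ⟨V, hV, J, hJ, γ, h1, h2, h3, h4⟩ := family_chart f hf x0 c0 h0 hx hc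
    rw [finrank_euclideanSpace, Fintype.card_fin] at h4
    exact ⟨V, hV, J, hJ, γ, h1, h2, h3, h4⟩
  choose! V hV J hJ γ hγs h1 h2 h3 using hloc
  obtain ⟨T, hTZ, hTc, hTcov⟩ := TopologicalSpace.countable_cover_nhdsWithin
    (s := Z) (f := fun z => V z ×ˢ J z)
    (fun z hz => mem_nhdsWithin_of_mem_nhds (prod_mem_nhds (hV z hz) (hJ z hz)))
  set Dfree : Set (EuclideanSpace ℝ (Fin n)) := {v : EuclideanSpace ℝ (Fin n) | v i = 1 ∧ ∃ x,
      {t : ℝ | ∃ c, f (x + t • v, c) = 0 ∧ fderiv ℝ (fun y => f (y, c)) (x + t • v) ≠ 0 ∧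
        fderiv ℝ f (x + t • v, c) (v, 0) = 0 ∧ fderiv ℝ f (x + t • v, c) (0, 1) = 0}.Infinite}
    with hDfree
  set Dfol : EuclideanSpace ℝ (Fin n) × ℝ → Set (EuclideanSpace ℝ (Fin n)) := fun z =>
    {v : EuclideanSpace ℝ (Fin n) | v i = 1 ∧
      ∃ x, volume {t : ℝ | x + t • v ∈ V z ∧ γ z (x + t • v) ∈ A ∩ J z} ≠ 0} with hDfol
  have hn1 : ((n - 1 : ℕ) : ℝ≥0∞) = ((n - 2 : ℕ) : ℝ≥0∞) + 1 := by
    have : n - 1 = (n - 2) + 1 := by omega
    rw [this]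
    push_cast
    rfl
  have hn2 : (n : ℝ≥0∞) = ((n - 1 : ℕ) : ℝ≥0∞) + 1 := by
    have : n = (n - 1) + 1 := by omega
    conv_lhs => rw [this]
    push_cast
    rfl
  have hfreedim : dimH Dfree ≤ dimH K - 1 := by
    refine (free_dim f hf i).trans ?_
    apply ENNReal.le_sub_of_add_le_right ENNReal.one_ne_top
    rw [← hn1]
    exact hK1
  have hfoldim : ∀ z ∈ T, dimH (Dfol z) ≤ dimH K - 1 := by
    intro z hz
    have hzZ := hTZ hz
    have hne : (A ∩ J z).Nonempty := ⟨z.2, hzZ.1, mem_of_mem_nhds (hJ z hzZ)⟩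
    have hlow := h3 z hzZ (A ∩ J z) inter_subset_right hne
    have hsubK : fam f (A ∩ J z) ⊆ K := by
      refine subset_trans ?_ hK
      rintro y ⟨c, hc, hy⟩
      exact ⟨c, hc.1, hy⟩
    have hle : ((n - 1 : ℕ) : ℝ≥0∞) + dimH (A ∩ J z) ≤ dimH K := hlow.trans (dimH_mono hsubK)
    have hA1 : dimH (A ∩ J z) < 1 := by
      have h5 : ((n - 1 : ℕ) : ℝ≥0∞) + dimH (A ∩ J z) < ((n - 1 : ℕ) : ℝ≥0∞) + 1 := by
        rw [← hn2]
        exact lt_of_le_of_lt hle hKn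
      exact (ENNReal.add_lt_add_iff_left (ENNReal.natCast_ne_top _)).1 h5
    refine (fol_dim (γ z) (hγs z hzZ) (V z) (h2 z hzZ) (A ∩ J z) hA1 i).trans ?_
    apply ENNReal.le_sub_of_add_le_right ENNReal.one_ne_top
    rw [add_right_comm, ← hn1]
    exact hle
  have hsub : {v : EuclideanSpace ℝ (Fin n) | v i = 1 ∧
      ∃ x, volume {t : ℝ | x + t • v ∈ fam f A} ≠ 0} ⊆ Dfree ∪ ⋃ z ∈ T, Dfol z := by
    rintro v ⟨hvi, x, hT⟩
    by_contra hno
    rw [mem_union, not_or] at hno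
    obtain ⟨hno1, hno2⟩ := hno
    apply hT
    have hfin : {t : ℝ | ∃ c, f (x + t • v, c) = 0 ∧
        fderiv ℝ (fun y => f (y, c)) (x + t • v) ≠ 0 ∧
        fderiv ℝ f (x + t • v, c) (v, 0) = 0 ∧ fderiv ℝ f (x + t • v, c) (0, 1) = 0}.Finite := by
      rw [← not_infinite]
      intro hinf
      exact hno1 ⟨hvi, x, hinf⟩
    have hfol : ∀ z ∈ T, volume {t : ℝ | x + t • v ∈ V z ∧ γ z (x + t • v) ∈ A ∩ J z} = 0 := by
      intro z hz
      by_contra hne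
      exact hno2 (mem_iUnion₂.2 ⟨z, hz, hvi, x, hne⟩)
    have hcov : {t : ℝ | x + t • v ∈ fam f A} ⊆
        ({t : ℝ | ∃ c, f (x + t • v, c) = 0 ∧ fderiv ℝ f (x + t • v, c) (v, 0) ≠ 0 ∧
          fderiv ℝ f (x + t • v, c) (0, 1) = 0} ∪
        {t : ℝ | ∃ c, f (x + t • v, c) = 0 ∧ fderiv ℝ (fun y => f (y, c)) (x + t • v) ≠ 0 ∧
        fderiv ℝ f (x + t • v, c) (v, 0) = 0 ∧ fderiv ℝ f (x + t • v, c) (0, 1) = 0}) ∪
        ⋃ z ∈ T, {t : ℝ | x + t • v ∈ V z ∧ γ z (x + t • v) ∈ A ∩ J z} := by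
      rintro t ⟨c, hcA, hc0, hcx⟩
      by_cases hcc : fderiv ℝ f (x + t • v, c) (0, 1) = 0
      · left
        by_cases hcv : fderiv ℝ f (x + t • v, c) (v, 0) = 0
        · exact Or.inr ⟨c, hc0, hcx, hcv, hcc⟩
        · exact Or.inl ⟨c, hc0, hcv, hcc⟩
      · right
        have hmem : (x + t • v, c) ∈ Z := ⟨hcA, hc0, hcx, hcc⟩
        obtain ⟨z, hz, hzVJ⟩ := mem_iUnion₂.1 (hTcov hmem)
        have hz1 : x + t • v ∈ V z := hzVJ.1
        have hz2 : c ∈ J z := hzVJ.2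
        have hz3 := h1 z (hTZ hz) _ hz1 c hz2 hc0
        refine mem_iUnion₂.2 ⟨z, hz, hz1, ?_⟩
        rw [← hz3]
        exact ⟨hcA, hz2⟩
    refine measure_mono_null hcov ?_
    rw [measure_union_null_iff, measure_union_null_iff]
    refine ⟨⟨null_b1 f hf x v, hfin.measure_zero _⟩, ?_⟩
    rw [measure_biUnion_null_iff hTc]
    exact hfol
  refine (dimH_mono hsub).trans ?_
  rw [dimH_union, dimH_bUnion hTc]
  exact max_le hfreedim (iSup₂_le hfoldim)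

/-- Main theorem. -/
theorem families (hn : 2 ≤ n) (f : ℕ → EuclideanSpace ℝ (Fin n) × ℝ → ℝ)
    (hf : ∀ j, ContDiff ℝ ∞ (f j)) (C : ℕ → Set ℝ) (K : Set (EuclideanSpace ℝ (Fin n)))
    (hK : K = ⋃ j, fam (f j) (C j)) (Om : Set (EuclideanSpace ℝ (Fin n)))
    (hne : Om.Nonempty)
    (hOm : ∀ d ∈ Om, ‖d‖ = 1 ∧ ∃ x, volume {t : ℝ | x + t • d ∈ K} ≠ 0) :
    dimH Om + 1 ≤ dimH K := by
  have hn2 : (n : ℝ≥0∞) = ((n - 1 : ℕ) : ℝ≥0∞) + 1 := by
    have : n = (n - 1) + 1 := by omega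
    conv_lhs => rw [this]
    push_cast
    rfl
  by_cases hKn : dimH K < n
  · have hKne : K.Nonempty := by
      obtain ⟨d, hd⟩ := hne
      obtain ⟨_, x, hx⟩ := hOm d hd
      have : {t : ℝ | x + t • d ∈ K}.Nonempty := by
        by_contra h
        rw [not_nonempty_iff_eq_empty] at h
        rw [h] at hx
        simp at hx
      obtain ⟨t, ht⟩ := this
      exact ⟨_, ht⟩
    have hK1 : ((n - 1 : ℕ) : ℝ≥0∞) ≤ dimH K := by
      obtain ⟨y, hy⟩ := hKne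
      rw [hK] at hy
      obtain ⟨j, hj⟩ := mem_iUnion.1 hy
      refine (fam_lower (f j) (hf j) (C j) ⟨y, hj⟩).trans (dimH_mono ?_)
      rw [hK]
      exact subset_iUnion (fun j => fam (f j) (C j)) j
    have hdim : dimH Om ≤ dimH K - 1 := by
      apply sphere_transfer _ (fun i => ⋃ j, {v : EuclideanSpace ℝ (Fin n) | v i = 1 ∧
        ∃ x, volume {t : ℝ | x + t • v ∈ fam (f j) (C j)} ≠ 0})
      · intro i v hv
        obtain ⟨j, hj⟩ := mem_iUnion.1 hv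
        exact hj.1
      · intro i
        rw [dimH_iUnion]
        apply iSup_le
        intro j
        apply chart_family_dim (f j) (hf j) (C j) K _ hn hKn hK1 i
        rw [hK]
        exact subset_iUnion (fun j => fam (f j) (C j)) j
      · intro d hd
        obtain ⟨hd1, x, hx⟩ := hOm d hd
        refine ⟨hd1, ?_⟩
        intro i hi
        obtain ⟨j, hj⟩ : ∃ j, volume {t : ℝ | x + t • d ∈ fam (f j) (C j)} ≠ 0 := by
          by_contra hcon
          push Not at hcon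
          apply hx
          have : {t : ℝ | x + t • d ∈ K} ⊆ ⋃ j, {t : ℝ | x + t • d ∈ fam (f j) (C j)} := by
            intro t ht
            have ht' : x + t • d ∈ K := ht
            rw [hK] at ht'
            obtain ⟨j, hj⟩ := mem_iUnion.1 ht'
            exact mem_iUnion.2 ⟨j, hj⟩
          exact measure_mono_null this (measure_iUnion_null hcon)
        refine mem_iUnion.2 ⟨j, ?_, x, ?_⟩
        · rw [PiLp.smul_apply, smul_eq_mul, inv_mul_cancel₀ hi]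
        · intro hnull
          apply hj
          have h1 : {t : ℝ | x + t • d ∈ fam (f j) (C j)} =
              (fun t : ℝ => t * d i) ⁻¹' {t : ℝ | x + t • ((d i)⁻¹ • d) ∈ fam (f j) (C j)} := by
            ext t
            have h2 : (t * d i) • ((d i)⁻¹ • d) = t • d := by
              rw [smul_smul, mul_assoc, mul_inv_cancel₀ hi, mul_one]
            change x + t • d ∈ fam (f j) (C j) ↔ x + (t * d i) • ((d i)⁻¹ • d) ∈ fam (f j) (C j)
            rw [h2]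
          rw [h1, Real.volume_preimage_mul_right hi, hnull, mul_zero]
    have h1K : (1 : ℝ≥0∞) ≤ dimH K := by
      refine le_trans ?_ hK1
      exact_mod_cast (by omega : 1 ≤ n - 1)
    calc dimH Om + 1 ≤ (dimH K - 1) + 1 := add_le_add hdim le_rfl
      _ = dimH K := tsub_add_cancel_of_le h1K
  · push Not at hKn
    refine le_trans ?_ hKn
    rw [hn2]
    exact add_le_add (sphere_dim hn Om (fun d hd => (hOm d hd).1)) le_rfl

end main

end Pool.Agent.Helper1.KakSmooth
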