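import Mathlib
import Pool.Agent.Helper1.KakSmooth.Config

set_option autoImplicit false

open Set MeasureTheory Filter Topology Module
open scoped ContDiff NNReal ENNReal

namespace Pool.Agent.Helper1.KakSmooth

/-- many points with nonzero conormals on a line meeting the image in an uncountable set -/
lemma many_points {E F : Type} [NormedAddCommGroup E] [NormedSpace ℝ E]
    [FiniteDimensional ℝ E] [NormedAddCommGroup F] [NormedSpace ℝ F] [FiniteDimensional ℝ F]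
    (Ψ : F → E) (hΨ : ContDiff ℝ ∞ Ψ) (hrk : ∀ s, ¬ Function.Surjective (fderiv ℝ Ψ s))
    (x v : E) (hunc : ¬ {t : ℝ | x + t • v ∈ range Ψ}.Countable) (N : ℕ) :
    ∃ (τ : Fin N → ℝ) (s : Fin N → F) (p : Fin N → (E →L[ℝ] ℝ)), Function.Injective τ ∧
      (∀ k, Ψ (s k) = x + τ k • v) ∧ (∀ k, p k ≠ 0) ∧ (∀ k, p k v = 0) ∧
      ∀ k u, p k (fderiv ℝ Ψ (s k) u) = 0 := by
  set T2 : Set ℝ := {t : ℝ | ∃ s, Ψ s = x + t • v ∧
      ¬ Function.Surjective (fun u : ℝ × F => u.1 • v - fderiv ℝ Ψ s u.2)} with hT2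
  have hsub : {t : ℝ | x + t • v ∈ range Ψ} ⊆ {t : ℝ | ∃ s, Ψ s = x + t • v ∧
      Function.Surjective (fun u : ℝ × F => u.1 • v - fderiv ℝ Ψ s u.2)} ∪ T2 := by
    rintro t ⟨s, hs⟩
    by_cases h : Function.Surjective (fun u : ℝ × F => u.1 • v - fderiv ℝ Ψ s u.2)
    · exact Or.inl ⟨s, hs, h⟩
    · exact Or.inr ⟨s, hs, h⟩
  have hinf : T2.Infinite := by
    intro hfin
    apply hunc
    exact ((count_transverse Ψ hΨ hrk x v).union hfin.countable).mono hsub
  set em := hinf.natEmbedding T2 with hem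
  have hex : ∀ k : Fin N, ∃ (s : F) (p : E →L[ℝ] ℝ), Ψ s = x + ((em k : T2) : ℝ) • v ∧ p ≠ 0 ∧
      p v = 0 ∧ ∀ u, p (fderiv ℝ Ψ s u) = 0 := by
    intro k
    obtain ⟨s, hs, hns⟩ := (em k).2
    set L : ℝ × F →ₗ[ℝ] E :=
      (((ContinuousLinearMap.fst ℝ ℝ F).smulRight v - fderiv ℝ Ψ s ∘L
        ContinuousLinearMap.snd ℝ ℝ F : ℝ × F →L[ℝ] E) : ℝ × F →ₗ[ℝ] E) with hL
    have hLv : ∀ u : ℝ × F, L u = u.1 • v - fderiv ℝ Ψ s u.2 := fun u => rfl
    have hlt : LinearMap.range L < ⊤ := by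
      rw [lt_top_iff_ne_top]
      intro h
      apply hns
      exact LinearMap.range_eq_top.1 h
    obtain ⟨f, hf0, hfk⟩ := Submodule.exists_le_ker_of_lt_top _ hlt
    have hfL : ∀ u, f (L u) = 0 := fun u => hfk ⟨u, rfl⟩
    refine ⟨s, LinearMap.toContinuousLinearMap f, hs, ?_, ?_, ?_⟩
    · intro h0
      apply hf0
      ext u
      have := congrArg (fun g : E →L[ℝ] ℝ => g u) h0
      simpa using this
    · have := hfL (1, 0)
      rw [hLv] at this
      simpa using this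
    · intro u
      have := hfL (0, u)
      rw [hLv] at this
      simpa using this
  choose s p h1 h2 h3 h4 using hex
  refine ⟨fun k => ((em k : T2) : ℝ), s, p, ?_, h1, h2, h3, h4⟩
  intro a b hab
  have := em.injective (Subtype.ext hab)
  exact Fin.ext this

/-- configurations from uncountable intersections -/
lemma exists_config {E F : Type} [NormedAddCommGroup E] [NormedSpace ℝ E]
    [FiniteDimensional ℝ E] [NormedAddCommGroup F] [NormedSpace ℝ F] [FiniteDimensional ℝ F]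
    (Ψ : F → E) (hΨ : ContDiff ℝ ∞ Ψ) (hrk : ∀ s, ¬ Function.Surjective (fderiv ℝ Ψ s))
    (x v : E) (hunc : ¬ {t : ℝ | x + t • v ∈ range Ψ}.Countable) :
    ∃ (τ : Fin (finrank ℝ (E →L[ℝ] ℝ) + 1) → ℝ) (s : Fin (finrank ℝ (E →L[ℝ] ℝ) + 1) → F)
      (P : Fin (finrank ℝ (E →L[ℝ] ℝ) + 1) → (E →L[ℝ] ℝ)),
      (∀ k, Ψ (s k) = x + τ k • v) ∧ (∀ k, P k v = 0) ∧
      (∀ k u, P k (fderiv ℝ Ψ (s k) u) = 0) ∧ (∑ k, P k = 0) ∧ (∑ k, τ k • P k ≠ 0) := by
  obtain ⟨τ, s, p, hτ, h1, h2, h3, h4⟩ := many_points Ψ hΨ hrk x v hunc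
    (finrank ℝ (E →L[ℝ] ℝ) + 1)
  obtain ⟨c, hc1, hc2⟩ := exists_combination _ (Nat.lt_succ_self _) τ hτ p h2
  refine ⟨τ, s, fun k => c k • p k, h1, ?_, ?_, hc1, hc2⟩
  · intro k
    rw [smul_apply, h3 k, smul_zero]
  · intro k u
    rw [smul_apply, h4 k u, smul_zero]

lemma sum_single {n : ℕ} (v : EuclideanSpace ℝ (Fin n)) :
    v = ∑ k, v k • EuclideanSpace.single k (1 : ℝ) := by
  ext m
  simp [Finset.sum_apply, Pi.single_apply]

/-- the affine chart of directions -/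
lemma affine_dim {n : ℕ} {F : Type} [NormedAddCommGroup F] [NormedSpace ℝ F]
    [FiniteDimensional ℝ F] (Ψ : F → EuclideanSpace ℝ (Fin n)) (hΨ : ContDiff ℝ ∞ Ψ)
    (hrk : ∀ s, ¬ Function.Surjective (fderiv ℝ Ψ s)) (i : Fin n) :
    dimH {v : EuclideanSpace ℝ (Fin n) | v i = 1 ∧
      ∃ x, ¬ {t : ℝ | x + t • v ∈ range Ψ}.Countable} ≤ ((n - 2 : ℕ) : ℝ≥0∞) := by
  set N := finrank ℝ (EuclideanSpace ℝ (Fin n) →L[ℝ] ℝ) + 1 with hN
  set e : Fin n → EuclideanSpace ℝ (Fin n) := fun k => EuclideanSpace.single k (1 : ℝ) with he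
  set A : ∀ j : Fin n, ((({i, j} : Finset (Fin n))ᶜ : Finset (Fin n)) → ℝ) →L[ℝ]
      EuclideanSpace ℝ (Fin n) := fun j =>
    ∑ k, (ContinuousLinearMap.proj (R := ℝ) (φ := fun _ => ℝ) k).smulRight (e k) with hA
  set B : Fin n → Set (EuclideanSpace ℝ (Fin n)) := fun j =>
    {v | ∃ (ξ : ((({i, j} : Finset (Fin n))ᶜ : Finset (Fin n)) → ℝ)) (l : ℝ),
      v = e i + A j ξ + l • e j ∧
      ∃ (x : EuclideanSpace ℝ (Fin n)) (τ : Fin N → ℝ) (s : Fin N → F)
        (P : Fin N → (EuclideanSpace ℝ (Fin n) →L[ℝ] ℝ)),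
        (∀ k, Ψ (s k) = x + τ k • v) ∧ (∀ k, P k v = 0) ∧
        (∀ k u, P k (fderiv ℝ Ψ (s k) u) = 0) ∧ (∑ k, P k = 0) ∧
        (∑ k, τ k * P k (e j) = 1)} with hB
  have hBdim : ∀ j, j ≠ i → dimH (B j) ≤ ((n - 2 : ℕ) : ℝ≥0∞) := by
    intro j hj
    have h1 := conf_dim Ψ hΨ N (A j) (e i) (e j)
    have h2 : finrank ℝ ((({i, j} : Finset (Fin n))ᶜ : Finset (Fin n)) → ℝ) = n - 2 := by
      rw [Module.finrank_fintype_fun_eq_card, Fintype.card_coe, Finset.card_compl,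
        Finset.card_pair (Ne.symm hj), Fintype.card_fin]
    rw [h2] at h1
    exact h1
  have hsub : {v : EuclideanSpace ℝ (Fin n) | v i = 1 ∧
      ∃ x, ¬ {t : ℝ | x + t • v ∈ range Ψ}.Countable} ⊆ ⋃ j : {j : Fin n // j ≠ i}, B j := by
    rintro v ⟨hvi, x, hunc⟩
    obtain ⟨τ, s, P, h1, h2, h3, h4, h5⟩ := exists_config Ψ hΨ hrk x v hunc
    set Q : EuclideanSpace ℝ (Fin n) →L[ℝ] ℝ := ∑ k, τ k • P k with hQ
    have hQv : Q v = 0 := by
      rw [hQ, sum_apply]
      apply Finset.sum_eq_zero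
      intro k _
      rw [smul_apply, h2 k, smul_zero]
    have hQs : ∀ w : EuclideanSpace ℝ (Fin n), Q w = ∑ k, w k * Q (e k) := by
      intro w
      conv_lhs => rw [sum_single w]
      rw [map_sum]
      apply Finset.sum_congr rfl
      intro k _
      rw [map_smul, smul_eq_mul]
    obtain ⟨j, hji, hQj⟩ : ∃ j, j ≠ i ∧ Q (e j) ≠ 0 := by
      by_contra hcon
      push Not at hcon
      have h6 : Q (e i) = 0 := by
        have h7 := hQs v
        rw [hQv, Finset.sum_eq_single i (fun k _ hk => by rw [hcon k hk, mul_zero])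
          (fun h => absurd (Finset.mem_univ i) h), hvi, one_mul] at h7
        exact h7.symm
      apply h5
      apply ContinuousLinearMap.ext
      intro w
      change Q w = 0
      rw [hQs w]
      apply Finset.sum_eq_zero
      intro k _
      by_cases hk : k = i
      · rw [hk, h6, mul_zero]
      · rw [hcon k hk, mul_zero]
    refine mem_iUnion.2 ⟨⟨j, hji⟩, fun k => v k, v j, ?_, x, τ, s,
      fun k => (Q (e j))⁻¹ • P k, h1, ?_, ?_, ?_, ?_⟩
    · have h8 : A j (fun k => v k) = ∑ k ∈ ({i, j} : Finset (Fin n))ᶜ, v k • e k := by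
        rw [← Finset.sum_coe_sort]
        simp [hA, sum_apply]
      have h9 : v = ∑ k, v k • e k := sum_single v
      rw [← Finset.sum_compl_add_sum ({i, j} : Finset (Fin n)), ← h8,
        Finset.sum_pair (Ne.symm hji), hvi, one_smul] at h9
      conv_lhs => rw [h9]
      abel
    · intro k
      rw [smul_apply, h2 k, smul_zero]
    · intro k u
      rw [smul_apply, h3 k u, smul_zero]
    · rw [← Finset.smul_sum, h4, smul_zero]
    · have h10 : Q (e j) = ∑ k, τ k * P k (e j) := by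
        rw [hQ, sum_apply]
        rfl
      have h11 : ∑ k, τ k * ((Q (e j))⁻¹ • P k) (e j) = (Q (e j))⁻¹ * ∑ k, τ k * P k (e j) := by
        rw [Finset.mul_sum]
        apply Finset.sum_congr rfl
        intro k _
        rw [smul_apply, smul_eq_mul]
        ring
      rw [h11, ← h10, inv_mul_cancel₀ hQj]
  refine (dimH_mono hsub).trans ?_
  rw [dimH_iUnion]
  apply iSup_le
  rintro ⟨j, hj⟩
  exact hBdim j hj

/-- If a countable union of smooth images has empty interior, then the directions of the lines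
meeting it in an uncountable set form a set of Hausdorff dimension at most `n - 2`. -/
theorem dir_dim {n : ℕ} (m : ℕ → ℕ)
    (Ψ : (j : ℕ) → EuclideanSpace ℝ (Fin (m j)) → EuclideanSpace ℝ (Fin n))
    (hΨ : ∀ j, ContDiff ℝ ∞ (Ψ j)) (hint : interior (⋃ j, range (Ψ j)) = ∅) :
    dimH {d : EuclideanSpace ℝ (Fin n) | ‖d‖ = 1 ∧
      ∃ x, ¬ {t : ℝ | x + t • d ∈ ⋃ j, range (Ψ j)}.Countable} ≤ ((n - 2 : ℕ) : ℝ≥0∞) := by
  have hrk : ∀ j s, ¬ Function.Surjective (fderiv ℝ (Ψ j) s) := by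
    intro j s hsurj
    have h1 : HasStrictFDerivAt (Ψ j) (fderiv ℝ (Ψ j) s) s :=
      (hΨ j).contDiffAt.hasStrictFDerivAt (by simp)
    have h2 := h1.map_nhds_eq_of_surj (LinearMap.range_eq_top.2 hsurj)
    have h3 : range (Ψ j) ∈ 𝓝 (Ψ j s) := by
      rw [← h2]
      exact mem_map.2 (univ_mem' fun x => mem_range_self x)
    have h4 : (⋃ j, range (Ψ j)) ∈ 𝓝 (Ψ j s) :=
      mem_of_superset h3 (subset_iUnion (fun j => range (Ψ j)) j)
    have h5 := mem_interior_iff_mem_nhds.2 h4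
    rw [hint] at h5
    exact h5
  set D : ℕ → Fin n → Set (EuclideanSpace ℝ (Fin n)) := fun j i =>
    {v | v i = 1 ∧ ∃ x, ¬ {t : ℝ | x + t • v ∈ range (Ψ j)}.Countable} with hD
  have hDdim : ∀ j i, dimH (D j i) ≤ ((n - 2 : ℕ) : ℝ≥0∞) := fun j i =>
    affine_dim (Ψ j) (hΨ j) (hrk j) i
  set f : ℝ → EuclideanSpace ℝ (Fin n) → EuclideanSpace ℝ (Fin n) :=
    fun ε v => ε • (‖v‖⁻¹ • v) with hf
  have hfdim : ∀ ε j i, dimH (f ε '' D j i) ≤ ((n - 2 : ℕ) : ℝ≥0∞) := by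
    intro ε j i
    refine le_trans ?_ (hDdim j i)
    have hconv : Convex ℝ {v : EuclideanSpace ℝ (Fin n) | 0 < v i} := by
      have h1 : IsLinearMap ℝ (fun v : EuclideanSpace ℝ (Fin n) => v i) :=
        ⟨fun _ _ => rfl, fun _ _ => rfl⟩
      exact convex_halfSpace_gt h1 0
    have hsm : ContDiffOn ℝ 1 (f ε) {v : EuclideanSpace ℝ (Fin n) | 0 < v i} := by
      intro v hv
      apply ContDiffAt.contDiffWithinAt
      have hv0 : v ≠ 0 := by
        rintro rfl
        simp at hv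
      apply ContDiffAt.const_smul
      exact ((contDiffAt_norm ℝ hv0).inv (norm_ne_zero_iff.2 hv0)).smul contDiffAt_fun_id
    apply hsm.dimH_image_le hconv
    intro v hv
    have : v i = 1 := hv.1
    rw [Set.mem_ofPred_eq, this]
    exact one_pos
  have hsub : {d : EuclideanSpace ℝ (Fin n) | ‖d‖ = 1 ∧
      ∃ x, ¬ {t : ℝ | x + t • d ∈ ⋃ j, range (Ψ j)}.Countable} ⊆
      ⋃ j : ℕ, ⋃ i : Fin n, (f 1 '' D j i ∪ f (-1) '' D j i) := by
    rintro d ⟨hd, x, hunc⟩
    obtain ⟨j, hj⟩ : ∃ j, ¬ {t : ℝ | x + t • d ∈ range (Ψ j)}.Countable := by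
      by_contra hcon
      push Not at hcon
      apply hunc
      refine (countable_iUnion hcon).mono ?_
      intro t ht
      obtain ⟨j, hj⟩ := mem_iUnion.1 (show x + t • d ∈ ⋃ j, range (Ψ j) from ht)
      exact mem_iUnion.2 ⟨j, hj⟩
    obtain ⟨i, hi⟩ : ∃ i, d i ≠ 0 := by
      by_contra hcon
      push Not at hcon
      have : d = 0 := by
        ext i
        simpa using hcon i
      rw [this, norm_zero] at hd
      exact zero_ne_one hd
    have hDv : (d i)⁻¹ • d ∈ D j i := by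
      refine ⟨?_, x, ?_⟩
      · rw [PiLp.smul_apply, smul_eq_mul, inv_mul_cancel₀ hi]
      · intro hc
        apply hj
        have h1 := hc.preimage_of_injOn (f := fun t : ℝ => t * d i)
          (fun a _ b _ hab => mul_right_cancel₀ hi hab)
        refine h1.mono ?_
        intro t ht
        have h2 : (t * d i) • (d i)⁻¹ • d = t • d := by
          rw [smul_smul, mul_assoc, mul_inv_cancel₀ hi, mul_one]
        change x + (t * d i) • (d i)⁻¹ • d ∈ range (Ψ j)
        rw [h2]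
        exact ht
    have hnorm : ‖(d i)⁻¹ • d‖⁻¹ = |d i| := by
      rw [norm_smul, hd, mul_one, norm_inv, Real.norm_eq_abs, inv_inv]
    refine mem_iUnion₂.2 ⟨j, i, ?_⟩
    rcases lt_or_gt_of_ne hi with hneg | hpos
    · right
      refine ⟨_, hDv, ?_⟩
      simp only [hf]
      rw [hnorm, abs_of_neg hneg, smul_smul, smul_smul]
      have : -1 * -d i * (d i)⁻¹ = 1 := by
        rw [neg_one_mul, neg_neg, mul_inv_cancel₀ hi]
      rw [this, one_smul]
    · left
      refine ⟨_, hDv, ?_⟩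
      simp only [hf]
      rw [hnorm, abs_of_pos hpos, smul_smul, smul_smul, one_mul, mul_inv_cancel₀ hi, one_smul]
  refine (dimH_mono hsub).trans ?_
  rw [dimH_iUnion]
  apply iSup_le
  intro j
  rw [dimH_iUnion]
  apply iSup_le
  intro i
  rw [dimH_union]
  exact max_le (hfdim 1 j i) (hfdim (-1) j i)

end Pool.Agent.Helper1.KakSmooth
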