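import Mathlib
import Pool.Agent.Helper1.KakSmooth.Final
import Pool.Agent.Helper1.KakSmooth.Main
import Pool.Agent.Helper1.KakSmooth.FamQ

set_option autoImplicit false

open Set MeasureTheory Filter Topology Module
open scoped ContDiff NNReal ENNReal

namespace Pool.Agent.Helper1.KakSmooth

/-- Directions for countably many families with several parameters in small sets. -/
lemma famq_sphere {n : ℕ} (q : ℕ → ℕ)
    (g : (j : ℕ) → EuclideanSpace ℝ (Fin n) × EuclideanSpace ℝ (Fin (q j)) → ℝ)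
    (hg : ∀ j, ContDiff ℝ ∞ (g j)) (B : (j : ℕ) → Set (EuclideanSpace ℝ (Fin (q j))))
    (hB : ∀ j, dimH (B j) < 1) (Om : Set (EuclideanSpace ℝ (Fin n)))
    (hOm : ∀ d ∈ Om, ‖d‖ = 1 ∧ ∃ x, volume {t : ℝ | x + t • d ∈ ⋃ j, {x | ∃ b ∈ B j,
      g j (x, b) = 0 ∧ fderiv ℝ (fun y => g j (y, b)) x ≠ 0}} ≠ 0) :
    dimH Om ≤ ((n - 2 : ℕ) : ℝ≥0∞) + ⨆ j, dimH (B j) := by
  set S : (j : ℕ) → Set (EuclideanSpace ℝ (Fin n)) := fun j => {x | ∃ b ∈ B j,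
      g j (x, b) = 0 ∧ fderiv ℝ (fun y => g j (y, b)) x ≠ 0} with hS
  apply sphere_transfer _ (fun i => ⋃ j, {v : EuclideanSpace ℝ (Fin n) | v i = 1 ∧
    ∃ x, volume {t : ℝ | ∃ c ∈ B j, g j (x + t • v, c) = 0 ∧
        fderiv ℝ (fun y => g j (y, c)) (x + t • v) ≠ 0} ≠ 0})
  · intro i v hv
    obtain ⟨j, hj⟩ := mem_iUnion.1 hv
    exact hj.1
  · intro i
    rw [dimH_iUnion]
    apply iSup_le
    intro j
    refine (famq_dim (g j) (hg j) (B j) (hB j) i).trans ?_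
    exact add_le_add le_rfl (le_iSup (fun j => dimH (B j)) j)
  · intro d hd
    obtain ⟨hd1, x, hx⟩ := hOm d hd
    refine ⟨hd1, ?_⟩
    intro i hi
    obtain ⟨j, hj⟩ : ∃ j, volume {t : ℝ | x + t • d ∈ S j} ≠ 0 := by
      by_contra hcon
      push Not at hcon
      apply hx
      have : {t : ℝ | x + t • d ∈ ⋃ j, S j} ⊆ ⋃ j, {t : ℝ | x + t • d ∈ S j} := by
        intro t ht
        have ht' : x + t • d ∈ ⋃ j, S j := ht
        obtain ⟨j, hj⟩ := mem_iUnion.1 ht'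
        exact mem_iUnion.2 ⟨j, hj⟩
      exact measure_mono_null this (measure_iUnion_null hcon)
    refine mem_iUnion.2 ⟨j, ?_, x, ?_⟩
    · rw [PiLp.smul_apply, smul_eq_mul, inv_mul_cancel₀ hi]
    · intro hnull
      apply hj
      have h1 : {t : ℝ | x + t • d ∈ S j} =
          (fun t : ℝ => t * d i) ⁻¹' {t : ℝ | x + t • ((d i)⁻¹ • d) ∈ S j} := by
        ext t
        have h2 : (t * d i) • ((d i)⁻¹ • d) = t • d := by
          rw [smul_smul, mul_assoc, mul_inv_cancel₀ hi, mul_one]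
        change x + t • d ∈ S j ↔ x + (t * d i) • ((d i)⁻¹ • d) ∈ S j
        rw [h2]
      rw [h1, Real.volume_preimage_mul_right hi]
      have h3 : {t : ℝ | x + t • ((d i)⁻¹ • d) ∈ S j} =
          {t : ℝ | ∃ c ∈ B j, g j (x + t • ((d i)⁻¹ • d), c) = 0 ∧
            fderiv ℝ (fun y => g j (y, c)) (x + t • ((d i)⁻¹ • d)) ≠ 0} := rfl
      rw [h3, hnull, mul_zero]

/-- Smooth images, smooth one-parameter families of hypersurfaces with arbitrary parameter sets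
and smooth families of hypersurfaces with several parameters in small sets together. -/
theorem images_and_families {n : ℕ} (hn : 2 ≤ n) (m : ℕ → ℕ)
    (Ψ : (j : ℕ) → EuclideanSpace ℝ (Fin (m j)) → EuclideanSpace ℝ (Fin n))
    (hΨ : ∀ j, ContDiff ℝ ∞ (Ψ j)) (hint : interior (⋃ j, range (Ψ j)) = ∅)
    (q : ℕ → ℕ)
    (g : (j : ℕ) → EuclideanSpace ℝ (Fin n) × EuclideanSpace ℝ (Fin (q j)) → ℝ)
    (hg : ∀ j, ContDiff ℝ ∞ (g j)) (B : (j : ℕ) → Set (EuclideanSpace ℝ (Fin (q j))))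
    (f : ℕ → EuclideanSpace ℝ (Fin n) × ℝ → ℝ) (hf : ∀ j, ContDiff ℝ ∞ (f j))
    (C : ℕ → Set ℝ) (K : Set (EuclideanSpace ℝ (Fin n)))
    (hK1 : (⋃ j, fam (f j) (C j)) ⊆ K)
    (hK2 : K ⊆ (⋃ j, fam (f j) (C j)) ∪ (⋃ j, {x | ∃ b ∈ B j,
      g j (x, b) = 0 ∧ fderiv ℝ (fun y => g j (y, b)) x ≠ 0}) ∪ ⋃ j, range (Ψ j))
    (Om : Set (EuclideanSpace ℝ (Fin n)))
    (hOm : ∀ d ∈ Om, ‖d‖ = 1 ∧ ∃ x, volume {t : ℝ | x + t • d ∈ K} ≠ 0)
    (hdim : ((n - 2 : ℕ) : ℝ≥0∞) + ⨆ j, dimH (B j) < dimH Om) : dimH Om + 1 ≤ dimH K := by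
  have hn1 : ((n - 1 : ℕ) : ℝ≥0∞) = ((n - 2 : ℕ) : ℝ≥0∞) + 1 := by
    have : n - 1 = (n - 2) + 1 := by omega
    rw [this]
    push_cast
    rfl
  have hB : ∀ j, dimH (B j) < 1 := by
    intro j
    have h1 : ((n - 2 : ℕ) : ℝ≥0∞) + dimH (B j) < ((n - 2 : ℕ) : ℝ≥0∞) + 1 := by
      calc ((n - 2 : ℕ) : ℝ≥0∞) + dimH (B j) ≤ ((n - 2 : ℕ) : ℝ≥0∞) + ⨆ j, dimH (B j) :=
            add_le_add le_rfl (le_iSup (fun j => dimH (B j)) j)
        _ < dimH Om := hdim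
        _ ≤ ((n - 1 : ℕ) : ℝ≥0∞) := sphere_dim hn Om (fun d hd => (hOm d hd).1)
        _ = ((n - 2 : ℕ) : ℝ≥0∞) + 1 := hn1
    exact (ENNReal.add_lt_add_iff_left (ENNReal.natCast_ne_top _)).1 h1
  have himg := dir_dim m Ψ hΨ hint
  set M : Set (EuclideanSpace ℝ (Fin n)) := ⋃ j, range (Ψ j) with hM
  set S : Set (EuclideanSpace ℝ (Fin n)) := ⋃ j, {x | ∃ b ∈ B j,
      g j (x, b) = 0 ∧ fderiv ℝ (fun y => g j (y, b)) x ≠ 0} with hS
  set K' : Set (EuclideanSpace ℝ (Fin n)) := ⋃ j, fam (f j) (C j) with hK'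
  set Om1 : Set (EuclideanSpace ℝ (Fin n)) := {d | ‖d‖ = 1 ∧
    ∃ x, ¬ {t : ℝ | x + t • d ∈ M}.Countable} with hOm1
  set Om2 : Set (EuclideanSpace ℝ (Fin n)) := {d | ‖d‖ = 1 ∧
    ∃ x, volume {t : ℝ | x + t • d ∈ K'} ≠ 0} with hOm2
  set Om3 : Set (EuclideanSpace ℝ (Fin n)) := {d | ‖d‖ = 1 ∧
    ∃ x, volume {t : ℝ | x + t • d ∈ S} ≠ 0} with hOm3
  have hO1 : dimH Om1 ≤ ((n - 2 : ℕ) : ℝ≥0∞) + ⨆ j, dimH (B j) := himg.trans le_self_add
  have hO3 : dimH Om3 ≤ ((n - 2 : ℕ) : ℝ≥0∞) + ⨆ j, dimH (B j) :=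
    famq_sphere q g hg B hB Om3 (fun d hd => hd)
  have hcov : Om ⊆ (Om1 ∪ Om3) ∪ Om2 := by
    intro d hd
    obtain ⟨hd1, x, hx⟩ := hOm d hd
    by_cases hc : {t : ℝ | x + t • d ∈ M}.Countable
    · by_cases hs : volume {t : ℝ | x + t • d ∈ S} = 0
      · right
        refine ⟨hd1, x, ?_⟩
        intro hnull
        apply hx
        have hsub : {t : ℝ | x + t • d ∈ K} ⊆ ({t : ℝ | x + t • d ∈ K'} ∪
            {t : ℝ | x + t • d ∈ S}) ∪ {t : ℝ | x + t • d ∈ M} := by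
          intro t ht
          exact hK2 ht
        refine measure_mono_null hsub ?_
        rw [measure_union_null_iff, measure_union_null_iff]
        exact ⟨⟨hnull, hs⟩, hc.measure_zero _⟩
      · exact Or.inl (Or.inr ⟨hd1, x, hs⟩)
    · exact Or.inl (Or.inl ⟨hd1, x, hc⟩)
  have h3 : dimH Om ≤ dimH Om2 := by
    by_contra hlt
    push Not at hlt
    have h4 : dimH Om ≤ max (max (dimH Om1) (dimH Om3)) (dimH Om2) := by
      rw [← dimH_union, ← dimH_union]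
      exact dimH_mono hcov
    rcases le_max_iff.1 h4 with h | h
    · exact absurd (hdim.trans_le (h.trans (max_le hO1 hO3))) (lt_irrefl _)
    · exact absurd h (not_le.2 hlt)
  have hne : Om2.Nonempty := by
    by_contra hempty
    rw [not_nonempty_iff_eq_empty] at hempty
    rw [hempty, dimH_empty] at h3
    exact absurd (hdim.trans_le h3) not_lt_zero
  have h5 := families hn f hf C K' rfl Om2 hne (fun d hd => hd)
  calc dimH Om + 1 ≤ dimH Om2 + 1 := add_le_add h3 le_rfl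
    _ ≤ dimH K' := h5
    _ ≤ dimH K := dimH_mono hK1

end Pool.Agent.Helper1.KakSmooth
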