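import Mathlib
import Pool.Agent.Helper1.KakSmooth.Union

set_option autoImplicit false

open scoped ContDiff ENNReal

namespace Pool.Agent.Results.MP_b1773a_an.SmoothFamilies

/-- Let `S ⊆ K ⊆ S ∪ T ∪ M` in `ℝⁿ`, `n ≥ 2`, where
* `S` is the union of the regular parts of the hypersurfaces `{x | f j (x, c) = 0}`, `c ∈ C j`, of
  countably many `C^∞` one-parameter families, with arbitrary parameter sets `C j ⊆ ℝ`;
* `T` is the union of the regular parts of the hypersurfaces `{x | g j (x, b) = 0}`, `b ∈ B j`, of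
  countably many `C^∞` families with `q j` parameters;
* `M` is the union of the images of countably many `C^∞` maps between Euclidean spaces, and has
  empty interior.
If for every `d` in a set `Om` of unit vectors with `dim Om > n - 2 + sup dim (B j)` some line
parallel to `d` meets `K` in positive length, then `dim K ≥ dim Om + 1`. -/
theorem result {n : ℕ} (hn : 2 ≤ n)
    (f : ℕ → EuclideanSpace ℝ (Fin n) × ℝ → ℝ) (hf : ∀ j, ContDiff ℝ ∞ (f j))
    (C : ℕ → Set ℝ)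
    (q : ℕ → ℕ)
    (g : (j : ℕ) → EuclideanSpace ℝ (Fin n) × EuclideanSpace ℝ (Fin (q j)) → ℝ)
    (hg : ∀ j, ContDiff ℝ ∞ (g j)) (B : (j : ℕ) → Set (EuclideanSpace ℝ (Fin (q j))))
    (m : ℕ → ℕ) (Ψ : (j : ℕ) → EuclideanSpace ℝ (Fin (m j)) → EuclideanSpace ℝ (Fin n))
    (hΨ : ∀ j, ContDiff ℝ ∞ (Ψ j))
    (S T M K : Set (EuclideanSpace ℝ (Fin n)))
    (hS : S = ⋃ j, {x | ∃ c ∈ C j, f j (x, c) = 0 ∧ fderiv ℝ (fun y => f j (y, c)) x ≠ 0})
    (hT : T = ⋃ j, {x | ∃ b ∈ B j, g j (x, b) = 0 ∧ fderiv ℝ (fun y => g j (y, b)) x ≠ 0})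
    (hM : M = ⋃ j, Set.range (Ψ j)) (hMint : interior M = ∅)
    (hSK : S ⊆ K) (hK : K ⊆ S ∪ T ∪ M)
    (Om : Set (EuclideanSpace ℝ (Fin n)))
    (hOm : ∀ d ∈ Om, ‖d‖ = 1 ∧ ∃ x, MeasureTheory.volume {t : ℝ | x + t • d ∈ K} ≠ 0)
    (hdim : ((n - 2 : ℕ) : ℝ≥0∞) + ⨆ j, dimH (B j) < dimH Om) : dimH Om + 1 ≤ dimH K := by
  subst hS hT hM
  exact Pool.Agent.Helper1.KakSmooth.images_and_families hn m Ψ hΨ hMint q g hg B f hf C K
    hSK hK Om hOm hdim

end Pool.Agent.Results.MP_b1773a_an.SmoothFamilies
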